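import Pool.Agent.K1H40.CT.Rel

/-!
# Certificates
-/

set_option autoImplicit false
set_option linter.style.longLine false

namespace Pool.Agent.K1H40.CT

/-- denominator 4 -/
def cert3 : List (Tm × List V × List V) :=
  [(⟨2, [0, 0, 0, 1], []⟩, [V.e, V.x 0 1, V.P 0, V.P 1, V.P 2, V.P 4, V.P 5], [V.e, V.x 1 0, V.x 2 0, V.x 3 3, V.P 0, V.P 3, V.P 5]),
   (⟨12, [0, 0, 0, 0, 1], []⟩, [V.e, V.x 0 2, V.P 0, V.P 1, V.P 2, V.P 3, V.P 5], [V.e, V.x 1 1, V.x 2 1, V.x 3 3, V.P 0, V.P 1, V.P 2]),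
   (⟨29, [0, 0, 0, 0, 1], []⟩, [V.e, V.x 0 0, V.P 0, V.P 1, V.P 2, V.P 4, V.P 5], [V.e, V.x 1 1, V.x 2 1, V.x 3 2, V.P 1, V.P 2, V.P 3]),
   (⟨-44, [0, 0, 1], []⟩, [V.e, V.x 0 1, V.P 0, V.P 1, V.P 2, V.P 3, V.P 5], [V.e, V.x 1 1, V.x 2 3, V.x 3 3, V.P 0, V.P 1, V.P 3]),
   (⟨-4, [], [2, 3]⟩, [V.e, V.P 0, V.P 1, V.P 2, V.P 3, V.P 4, V.P 5], [V.e, V.x 0 0, V.x 1 1, V.P 0, V.P 1, V.P 4, V.P 5]),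
   (⟨2, [0, 0, 1], []⟩, [V.e, V.x 0 0, V.P 0, V.P 1, V.P 3, V.P 4, V.P 5], [V.e, V.x 1 1, V.x 2 1, V.x 3 2, V.P 0, V.P 2, V.P 5]),
   (⟨-2, [0, 0, 1], []⟩, [V.e, V.x 0 1, V.P 0, V.P 1, V.P 2, V.P 4, V.P 5], [V.e, V.x 1 1, V.x 2 1, V.x 3 2, V.P 1, V.P 2, V.P 3]),
   (⟨22, [0, 0, 0, 1], []⟩, [V.e, V.x 0 0, V.P 0, V.P 2, V.P 3, V.P 4, V.P 5], [V.e, V.x 1 0, V.x 2 0, V.x 3 2, V.P 0, V.P 4, V.P 5]),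
   (⟨-8, [0, 0, 1], []⟩, [V.e, V.x 0 3, V.P 0, V.P 1, V.P 3, V.P 4, V.P 5], [V.e, V.x 1 1, V.x 2 1, V.x 3 2, V.P 0, V.P 1, V.P 2]),
   (⟨4, [0, 0, 0, 0, 1], []⟩, [V.e, V.x 0 2, V.P 0, V.P 1, V.P 2, V.P 3, V.P 4], [V.e, V.x 1 0, V.x 2 0, V.x 3 1, V.P 2, V.P 3, V.P 5]),
   (⟨-10, [0, 0, 0, 1], []⟩, [V.e, V.x 0 0, V.x 1 3, V.P 1, V.P 2, V.P 3, V.P 4], [V.e, V.x 2 1, V.x 3 1, V.P 0, V.P 1, V.P 2, V.P 5]),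
   (⟨-5, [0, 0, 0, 1], []⟩, [V.e, V.x 0 1, V.x 1 1, V.P 0, V.P 1, V.P 2, V.P 3], [V.e, V.x 2 3, V.x 3 3, V.P 0, V.P 1, V.P 2, V.P 5]),
   (⟨-4, [0, 0, 1], []⟩, [V.e, V.x 0 2, V.P 0, V.P 1, V.P 3, V.P 4, V.P 5], [V.e, V.x 1 0, V.x 2 1, V.x 3 3, V.P 0, V.P 2, V.P 3]),
   (⟨-8, [0, 0, 0, 0, 0, 1], []⟩, [V.e, V.x 0 0, V.P 0, V.P 1, V.P 2, V.P 3, V.P 4], [V.e, V.x 1 0, V.x 2 1, V.x 3 2, V.P 2, V.P 3, V.P 4])]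

/-- denominator 4 -/
def cert2 : List (Tm × List V × List V) :=
  [(⟨4, [], [2, 3]⟩, [V.e, V.x 0 0, V.P 0, V.P 1, V.P 2, V.P 3, V.P 4], [V.e, V.x 1 1, V.P 1, V.P 2, V.P 3, V.P 4, V.P 5]),
   (⟨-8, [], [2, 3]⟩, [V.e, V.x 0 1, V.P 0, V.P 1, V.P 2, V.P 3, V.P 4], [V.e, V.x 1 2, V.P 0, V.P 1, V.P 2, V.P 4, V.P 5]),
   (⟨-54, [1], []⟩, [V.e, V.x 0 0, V.P 0, V.P 1, V.P 2, V.P 3, V.P 5], [V.e, V.x 1 1, V.x 2 1, V.x 3 3, V.P 1, V.P 4, V.P 5]),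
   (⟨32, [0, 1], []⟩, [V.e, V.x 0 2, V.P 0, V.P 2, V.P 3, V.P 4, V.P 5], [V.e, V.x 1 1, V.x 2 1, V.x 3 3, V.P 0, V.P 1, V.P 2]),
   (⟨-110, [0, 0, 0, 0, 1], []⟩, [V.e, V.x 0 0, V.P 0, V.P 1, V.P 3, V.P 4, V.P 5], [V.e, V.x 1 0, V.x 2 0, V.x 3 1, V.P 2, V.P 3, V.P 5]),
   (⟨26, [0, 0, 1], []⟩, [V.e, V.x 0 0, V.P 0, V.P 1, V.P 3, V.P 4, V.P 5], [V.e, V.x 1 1, V.x 2 1, V.x 3 2, V.P 1, V.P 2, V.P 4]),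
   (⟨34, [0, 0, 0, 1], []⟩, [V.e, V.x 0 0, V.x 1 1, V.P 0, V.P 1, V.P 2, V.P 3], [V.e, V.x 2 3, V.x 3 3, V.P 0, V.P 1, V.P 4, V.P 5]),
   (⟨94, [0, 0, 0, 1], []⟩, [V.e, V.x 0 0, V.P 0, V.P 2, V.P 3, V.P 4, V.P 5], [V.e, V.x 1 0, V.x 2 0, V.x 3 2, V.P 2, V.P 3, V.P 4]),
   (⟨31, [0, 0, 0, 0, 1], []⟩, [V.e, V.x 0 0, V.P 0, V.P 1, V.P 2, V.P 4, V.P 5], [V.e, V.x 1 1, V.x 2 1, V.x 3 2, V.P 1, V.P 2, V.P 3]),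
   (⟨18, [0, 1], []⟩, [V.e, V.x 0 0, V.P 0, V.P 2, V.P 3, V.P 4, V.P 5], [V.e, V.x 1 0, V.x 2 1, V.x 3 1, V.P 2, V.P 3, V.P 5]),
   (⟨12, [], [2, 3]⟩, [V.e, V.P 0, V.P 1, V.P 2, V.P 3, V.P 4, V.P 5], [V.e, V.x 0 0, V.x 1 1, V.P 1, V.P 2, V.P 3, V.P 4]),
   (⟨-8, [], [2, 3]⟩, [V.e, V.x 0 1, V.P 0, V.P 1, V.P 2, V.P 3, V.P 4], [V.e, V.x 1 3, V.P 0, V.P 1, V.P 2, V.P 3, V.P 5]),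
   (⟨2, [0, 0, 0, 0, 0, 1], []⟩, [V.e, V.x 0 0, V.x 1 0, V.P 1, V.P 2, V.P 3, V.P 4], [V.e, V.x 2 1, V.x 3 1, V.P 1, V.P 2, V.P 3, V.P 4]),
   (⟨4, [0, 0, 0, 1], []⟩, [V.e, V.x 0 0, V.x 1 0, V.P 1, V.P 2, V.P 4, V.P 5], [V.e, V.x 2 1, V.x 3 1, V.P 1, V.P 2, V.P 3, V.P 4]),
   (⟨26, [0, 0, 0, 1], []⟩, [V.e, V.x 0 0, V.P 1, V.P 2, V.P 3, V.P 4, V.P 5], [V.e, V.x 1 0, V.x 2 0, V.x 3 1, V.P 0, V.P 4, V.P 5]),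
   (⟨-4, [0, 0, 0, 0, 0, 1], []⟩, [V.e, V.x 0 0, V.x 1 3, V.P 0, V.P 1, V.P 2, V.P 3], [V.e, V.x 2 1, V.x 3 1, V.P 1, V.P 2, V.P 3, V.P 4]),
   (⟨-24, [0, 0, 0, 0, 0, 1], []⟩, [V.e, V.x 0 0, V.x 1 0, V.P 0, V.P 3, V.P 4, V.P 5], [V.e, V.x 2 0, V.x 3 1, V.P 1, V.P 2, V.P 3, V.P 4]),
   (⟨8, [0, 0, 0, 0, 0, 1], []⟩, [V.e, V.x 0 2, V.P 0, V.P 1, V.P 2, V.P 3, V.P 4], [V.e, V.x 1 0, V.x 2 0, V.x 3 1, V.P 0, V.P 4, V.P 5]),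
   (⟨20, [0, 0, 0, 0, 0, 1], []⟩, [V.e, V.x 0 0, V.P 0, V.P 1, V.P 2, V.P 3, V.P 4], [V.e, V.x 1 0, V.x 2 1, V.x 3 1, V.P 2, V.P 3, V.P 5]),
   (⟨-40, [0, 0, 0, 0, 0, 1], []⟩, [V.e, V.x 0 1, V.x 1 2, V.P 0, V.P 1, V.P 2, V.P 4], [V.e, V.x 2 1, V.x 3 3, V.P 0, V.P 1, V.P 2, V.P 3]),
   (⟨-16, [], [2, 3]⟩, [V.e, V.x 0 0, V.P 0, V.P 2, V.P 3, V.P 4, V.P 5], [V.e, V.x 1 2, V.P 0, V.P 1, V.P 2, V.P 3, V.P 4]),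
   (⟨-10, [0, 0, 0, 1], []⟩, [V.e, V.x 0 3, V.P 0, V.P 1, V.P 2, V.P 3, V.P 4], [V.e, V.x 1 0, V.x 2 0, V.x 3 1, V.P 1, V.P 4, V.P 5]),
   (⟨-34, [0, 1], []⟩, [V.e, V.x 0 1, V.P 0, V.P 1, V.P 2, V.P 4, V.P 5], [V.e, V.x 1 1, V.x 2 2, V.x 3 2, V.P 0, V.P 2, V.P 4]),
   (⟨12, [], [2, 3]⟩, [V.e, V.P 0, V.P 1, V.P 2, V.P 3, V.P 4, V.P 5], [V.e, V.x 0 1, V.x 1 1, V.P 0, V.P 1, V.P 2, V.P 5]),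
   (⟨4, [0, 0, 0, 0, 1], []⟩, [V.e, V.x 0 0, V.P 0, V.P 1, V.P 2, V.P 3, V.P 4], [V.e, V.x 1 0, V.x 2 1, V.x 3 2, V.P 2, V.P 3, V.P 5])]

/-- denominator 2 -/
def cert4 : List (Tm × List V × List V) :=
  [(⟨-6, [], [3, 4]⟩, [V.e, V.x 0 2, V.P 0, V.P 1, V.P 2, V.P 3, V.P 4], [V.e, V.x 1 2, V.x 2 3, V.P 0, V.P 1, V.P 2, V.P 4]),
   (⟨3, [0, 0, 0, 0, 0, 0, 1], []⟩, [V.e, V.x 0 2, V.P 0, V.P 1, V.P 2, V.P 3, V.P 4], [V.e, V.x 1 2, V.x 2 3, V.x 3 3, V.P 0, V.P 1, V.P 4]),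
   (⟨3, [], [3, 5]⟩, [V.e, V.x 0 0, V.P 1, V.P 2, V.P 3, V.P 4, V.P 5], [V.e, V.x 1 1, V.x 2 1, V.P 0, V.P 1, V.P 4, V.P 5]),
   (⟨-1, [], [3, 4]⟩, [V.e, V.P 0, V.P 1, V.P 2, V.P 3, V.P 4, V.P 5], [V.e, V.x 0 0, V.x 1 0, V.x 2 3, V.P 1, V.P 3, V.P 4]),
   (⟨-2, [], [3, 4]⟩, [V.e, V.P 0, V.P 1, V.P 2, V.P 3, V.P 4, V.P 5], [V.e, V.x 0 0, V.x 1 0, V.x 2 2, V.P 2, V.P 3, V.P 4])]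


/-- the `(0, 0)` minor -/
def cert1 : List (Tm × List V × List V) :=
  [(⟨1, [], [0, 1, 2, 3]⟩, [V.e, V.P 0, V.P 1, V.P 2, V.P 3, V.P 4, V.P 5],
    [V.e, V.P 0, V.P 1, V.P 2, V.P 3, V.P 4, V.P 5])]

theorem chk1 : isZ (addP [⟨1, [0, 0, 0, 0, 0, 0, 6], [0, 1, 2, 3]⟩,
    ⟨-2, [1, 0, 0, 0, 0, 1, 5], [0, 1, 2, 3]⟩, ⟨2, [0, 1, 0, 0, 1, 0, 5], [0, 1, 2, 3]⟩,
    ⟨-2, [0, 0, 1, 1, 0, 0, 5], [0, 1, 2, 3]⟩] (certP cert1)) = true := by decide +kernel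

theorem chk4 : isZ (addP [⟨2, [0, 0, 0, 0, 0, 0, 3], [0, 1, 2, 3, 4, 5, 6, 7]⟩] (certP cert4)) = true := by
  decide +kernel

theorem chk3 : isZ (addP [⟨4, [0, 0, 0, 0, 0, 0, 4], [0, 1, 2, 3, 6, 7]⟩] (certP cert3)) = true := by
  decide +kernel

theorem chk2 : isZ (addP [⟨4, [1, 0, 0, 0, 0, 0, 5], [0, 1, 2, 3]⟩] (certP cert2)) = true := by
  decide +kernel

end Pool.Agent.K1H40.CT
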