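import Pool.Agent.K1H40.CT.Stm

set_option autoImplicit false

namespace Pool.Agent.K1H40.CT

open MvPolynomial Pool.Agent.W474.Cat

universe u

/-- `hd` of the generic tensor is homogeneous of degree `7`. -/
theorem hd_hom (k : Type u) [CommRing k] (n : ℕ) (e : Fin 7 → Fin n) :
    (hd e (zX k n)).IsHomogeneous 7 := by
  unfold hd
  refine IsHomogeneous.sum _ _ _ fun m _ => ?_
  have h1 : ((eps m : ℤ) : MvPolynomial (Mon n (2 + 2)) k).IsHomogeneous 0 := by
    rw [← map_intCast (C : k →+* MvPolynomial (Mon n (2 + 2)) k)]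
    exact isHomogeneous_C _ _
  have h2 : (∏ j : Fin 7, zX k n (e (m j 0)) (e (m j 1)) (e (m j 2)) (e (m j 3))).IsHomogeneous
      (∑ _j : Fin 7, 1) :=
    IsHomogeneous.prod _ _ _ fun j _ => isHomogeneous_X _ _
  have h3 := h1.mul h2
  simpa using h3

end Pool.Agent.K1H40.CT
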