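import Pool.Agent.K1H39.CT.Nil
import Pool.Agent.K1H31.CT.Not
import Pool.Agent.K1H40.CT.Hom

/-!
Project CT: passage from the rational numbers to the fields of all but finitely many
characteristics.
-/

set_option autoImplicit false

namespace Pool.Agent.K1H40.CT

open MvPolynomial Pool.Agent.W474.Cat Pool.Agent.K1H39.CT Pool.Agent.K1H31.CT

universe u

/-- reduction of the coefficients -/
noncomputable def rd (k : Type u) [CommRing k] (n : ℕ) :
    MvPolynomial (Mon n (2 + 2)) ℤ →+* MvPolynomial (Mon n (2 + 2)) k := map (Int.castRingHom k)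

lemma rd_gen (k : Type u) [CommRing k] (n : ℕ) (a b : Fin 7 → Mon n 2) :
    rd k n (((catalecticant ℤ n 2 2).submatrix a b).det) =
      ((catalecticant k n 2 2).submatrix a b).det := by
  unfold rd
  rw [RingHom.map_det]
  congr 1
  ext1 i j
  rw [RingHom.mapMatrix_apply, Matrix.map_apply, Matrix.submatrix_apply, Matrix.submatrix_apply]
  unfold catalecticant
  rw [Matrix.of_apply, Matrix.of_apply, map_X]

lemma rd_mem (k : Type u) [CommRing k] (n : ℕ) {h : MvPolynomial (Mon n (2 + 2)) ℤ}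
    (hh : h ∈ minorsIdeal ℤ n 2 2 6) : rd k n h ∈ minorsIdeal k n 2 2 6 := by
  have hle : minorsIdeal ℤ n 2 2 6 ≤ Ideal.comap (rd k n) (minorsIdeal k n 2 2 6) := by
    rw [minorsIdeal, Ideal.span_le]
    rintro g ⟨a, b, rfl⟩
    show rd k n _ ∈ minorsIdeal k n 2 2 6
    rw [rd_gen]
    exact Ideal.subset_span ⟨a, b, rfl⟩
  exact hle hh

lemma rd_zX (k : Type u) [CommRing k] (n : ℕ) (a b c d : Fin n) :
    rd k n (zX ℤ n a b c d) = zX k n a b c d := by
  unfold rd zX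
  rw [map_X]

lemma rd_hd (k : Type u) [CommRing k] (n : ℕ) (e : Fin 7 → Fin n) :
    rd k n (hd e (zX ℤ n)) = hd e (zX k n) := by
  unfold hd
  rw [map_sum]
  refine Finset.sum_congr rfl fun m _ => ?_
  rw [map_mul, map_intCast, map_prod]
  simp only [rd_zX]

lemma clear_poly {σ : Type*} (s : MvPolynomial σ ℚ) : ∃ D : ℤ, D ≠ 0 ∧ ∃ r : MvPolynomial σ ℤ,
    (D : MvPolynomial σ ℚ) * s = map (Int.castRingHom ℚ) r := by
  induction s using MvPolynomial.induction_on with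
  | C q =>
      refine ⟨q.den, by exact_mod_cast q.den_nz, C q.num, ?_⟩
      rw [map_C]
      have h1 : (((q.den : ℤ) : ℤ) : MvPolynomial σ ℚ) = C ((q.den : ℤ) : ℚ) := by
        rw [← map_intCast (C : ℚ →+* MvPolynomial σ ℚ)]
      rw [h1, ← C_mul]
      congr 1
      have := q.den_mul_eq_num
      simp
  | add p q hp hq =>
      obtain ⟨D1, h1, r1, e1⟩ := hp
      obtain ⟨D2, h2, r2, e2⟩ := hq
      refine ⟨D1 * D2, mul_ne_zero h1 h2, D2 * r1 + D1 * r2, ?_⟩
      rw [map_add, map_mul, map_mul, ← e1, ← e2, map_intCast, map_intCast]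
      push_cast
      ring
  | mul_X p i hp =>
      obtain ⟨D1, h1, r1, e1⟩ := hp
      refine ⟨D1, h1, r1 * X i, ?_⟩
      rw [map_mul, ← e1, map_X]
      ring

lemma clear_mem {n : ℕ} {q : MvPolynomial (Mon n (2 + 2)) ℚ} (hq : q ∈ minorsIdeal ℚ n 2 2 6) :
    ∃ D : ℤ, D ≠ 0 ∧ ∃ h ∈ minorsIdeal ℤ n 2 2 6,
      (D : MvPolynomial (Mon n (2 + 2)) ℚ) * q = rd ℚ n h := by
  unfold minorsIdeal at hq
  induction hq using Submodule.span_induction with
  | mem x hx =>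
      obtain ⟨a, b, rfl⟩ := hx
      refine ⟨1, one_ne_zero, _, Ideal.subset_span ⟨a, b, rfl⟩, ?_⟩
      rw [rd_gen]
      push_cast
      ring
  | zero => exact ⟨1, one_ne_zero, 0, Ideal.zero_mem _, by rw [mul_zero, map_zero]⟩
  | add x y _ _ hx hy =>
      obtain ⟨D1, h1, r1, m1, e1⟩ := hx
      obtain ⟨D2, h2, r2, m2, e2⟩ := hy
      refine ⟨D1 * D2, mul_ne_zero h1 h2, D2 * r1 + D1 * r2,
        Ideal.add_mem _ (Ideal.mul_mem_left _ _ m1) (Ideal.mul_mem_left _ _ m2), ?_⟩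
      rw [map_add, map_mul, map_mul, ← e1, ← e2, map_intCast, map_intCast]
      push_cast
      ring
  | smul a x _ hx =>
      obtain ⟨D1, h1, r1, m1, e1⟩ := hx
      obtain ⟨D2, h2, r2, e2⟩ := clear_poly a
      refine ⟨D2 * D1, mul_ne_zero h2 h1, r2 * r1, Ideal.mul_mem_left _ _ m1, ?_⟩
      rw [map_mul, ← e1]
      have e3 : rd ℚ n r2 = (D2 : MvPolynomial (Mon n (2 + 2)) ℚ) * a := e2.symm
      rw [e3, smul_eq_mul]
      push_cast
      ring

/-- one variable -/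
lemma trans_var (H : S_VAN.{0}) (n : ℕ) (e : Fin 7 → Fin n) (γ : Mon n (2 + 2)) :
    ∃ D : ℤ, D ≠ 0 ∧ ∀ (k : Type u) [Field k], (D : k) ≠ 0 → X γ ∈ (J k n e).radical := by
  have h0 : (X γ : MvPolynomial (Mon n (2 + 2)) ℚ) ∈ (J ℚ n e).radical := by
    obtain ⟨a, b, c, d, h1⟩ := X_eq_zX ℚ n γ
    rw [h1]
    exact zX_mem H ℚ n e a b c d
  obtain ⟨m, hm⟩ := h0
  rw [mem_J] at hm
  obtain ⟨D, hD, h, hh, he⟩ := clear_mem hm
  refine ⟨D, hD, fun k _ hk => ?_⟩
  have h1 : (D : MvPolynomial (Mon n (2 + 2)) ℤ) * (X γ ^ m * hd e (zX ℤ n)) = h := by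
    apply map_injective (Int.castRingHom ℚ) Int.cast_injective
    show rd ℚ n _ = rd ℚ n h
    rw [← he, map_mul, map_mul, map_pow, map_intCast, rd_hd]
    congr 3
    unfold rd
    rw [map_X]
  have h2 := rd_mem k n hh
  rw [← h1, map_mul, map_mul, map_pow, map_intCast, rd_hd] at h2
  have h3 : rd k n (X γ) = X γ := by
    unfold rd
    rw [map_X]
  rw [h3] at h2
  refine ⟨m, mem_J.2 ?_⟩
  have h4 := Ideal.mul_mem_left _ (C ((D : k)⁻¹)) h2
  have h5 : (C ((D : k)⁻¹) : MvPolynomial (Mon n (2 + 2)) k) * (D : MvPolynomial (Mon n (2 + 2)) k) = 1 := by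
    rw [← map_intCast (C : k →+* MvPolynomial (Mon n (2 + 2)) k), ← C_mul, inv_mul_cancel₀ hk, C_1]
  rwa [← mul_assoc, h5, one_mul] at h4

/-- all variables -/
lemma trans_all (H : S_VAN.{0}) (n : ℕ) (e : Fin 7 → Fin n) :
    ∃ D : ℤ, D ≠ 0 ∧ ∀ (k : Type u) [Field k], (D : k) ≠ 0 →
      ∃ N : ℕ, ∀ g ∈ irrelevant k n (2 + 2) ^ N, g * hd e (zX k n) ∈ minorsIdeal k n 2 2 6 := by
  classical
  have hfin := finite_Mon n (2 + 2)
  have := Fintype.ofFinite (Mon n (2 + 2))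
  choose D hD h using fun γ => trans_var.{u} H n e γ
  refine ⟨∏ γ, D γ, Finset.prod_ne_zero_iff.2 fun γ _ => hD γ, fun k _ hk => ?_⟩
  rw [Int.cast_prod, Finset.prod_ne_zero_iff] at hk
  have h : irrelevant k n (2 + 2) ≤ (J k n e).radical := by
    unfold irrelevant
    rw [Ideal.span_le]
    rintro _ ⟨γ, rfl⟩
    exact h γ k (hk γ (Finset.mem_univ _))
  obtain ⟨N, hN⟩ := Ideal.exists_pow_le_of_le_radical_of_fg h
    ⟨(Set.finite_range X).toFinset, by rw [Set.Finite.coe_toFinset]; rfl⟩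
  exact ⟨N, fun g hg => mem_J.1 (hN hg)⟩

/-- `hd` is outside the ideal if the constant `Cst` does not vanish in the field -/
lemma not_mem (h1 : S_TOP1.{u}) (h3 : S_TOP3.{u}) (k : Type u) [Field k] (hk : (Cst : k) ≠ 0)
    (n : ℕ) (e : Fin 7 → Fin n) (he : Function.Injective e) :
    hd e (zX k n) ∉ minorsIdeal k n 2 2 6 := by
  intro hmem
  have h0 : ev k e (hd e (zX k n)) = 0 := ideal_le e hmem
  have h2 := ev_hd (k := k) h1 he
  rw [h0] at h2
  have h4 : (Cst : k) • W0 k = 0 := h2.symm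
  exact hk (h3 k (Cst : k) (by rw [← mul_smul_comm, h4, mul_zero]))

/-- **Nonsaturation outside finitely many characteristics.** -/
theorem t_CHARP (H : S_VAN.{0}) (h1 : S_TOP1.{u}) (h3 : S_TOP3.{u}) (n : ℕ) (hn : 7 ≤ n) :
    ∃ P : Finset ℕ, (∀ p ∈ P, p.Prime) ∧ ∀ (k : Type u) [Field k], ringChar k ∉ P →
      ∃ f : MvPolynomial (Mon n (2 + 2)) k, f.IsHomogeneous 7 ∧ f ∉ minorsIdeal k n 2 2 6 ∧
        ∃ N : ℕ, ∀ g ∈ irrelevant k n (2 + 2) ^ N, g * f ∈ minorsIdeal k n 2 2 6 := by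
  obtain ⟨D, hD, h⟩ := trans_all.{u} H n (Fin.castLE hn)
  refine ⟨(D * Cst).natAbs.primeFactors, fun p hp => Nat.prime_of_mem_primeFactors hp,
    fun k _ hk => ?_⟩
  have hne : (D * Cst).natAbs ≠ 0 := by
    rw [Int.natAbs_ne_zero]
    exact mul_ne_zero hD Cst_ne
  have hcast : ((D * Cst : ℤ) : k) ≠ 0 := by
    intro h0
    apply hk
    have h2 : (((D * Cst).natAbs : ℕ) : k) = 0 := by
      have h4 : (((D * Cst).natAbs : ℤ) : k) = 0 := by
        rcases Int.natAbs_eq (D * Cst) with h5 | h5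
        · rw [← h5]; exact h0
        · have h6 : (((D * Cst).natAbs : ℤ)) = -(D * Cst) := by omega
          rw [h6, Int.cast_neg, h0, neg_zero]
      rwa [Int.cast_natCast] at h4
    have h5 : ringChar k ∣ (D * Cst).natAbs := (ringChar.spec k _).1 h2
    have h6 : ringChar k ≠ 0 := by
      intro h7
      rw [h7, zero_dvd_iff] at h5
      exact hne h5
    have h7 : (ringChar k).Prime := (CharP.char_is_prime_or_zero k (ringChar k)).resolve_right h6
    exact Nat.mem_primeFactors.2 ⟨h7, h5, hne⟩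
  rw [Int.cast_mul] at hcast
  exact ⟨hd (Fin.castLE hn) (zX k n), hd_hom k n _, not_mem h1 h3 k (right_ne_zero_of_mul hcast) n _
    (Fin.castLE_injective hn), h k (left_ne_zero_of_mul hcast)⟩

end Pool.Agent.K1H40.CT
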