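import Pool.Agent.K1H40.CT.Cert

/-!
# The core facts
-/

set_option autoImplicit false

namespace Pool.Agent.K1H40.CT

universe u w

section

variable {R : Type u} [CommRing R] [Algebra ℚ R] {n : ℕ} {L : Type w} [Ring L] [Algebra R L]
  {z : Fin n → Fin n → Fin n → Fin n → R} {v : Fin n → R} {O : Set L}
  {t : Fin 4 → Fin n → L} {xi : Fin 4 → L}

theorem int_cancel (R : Type u) [CommRing R] [Algebra ℚ R] {L : Type w} [Ring L] [Algebra R L]
    (k : ℤ) (hk : k ≠ 0) (x : L) (h : (k : L) * x = 0) : x = 0 := by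
  have h1 : (algebraMap R L (algebraMap ℚ R ((k : ℚ)⁻¹))) * (k : L) = 1 := by
    have h2 : (k : L) = algebraMap R L (algebraMap ℚ R (k : ℚ)) := by simp
    rw [h2, ← map_mul, ← map_mul, inv_mul_cancel₀ (by exact_mod_cast hk), map_one, map_one]
  calc x = (algebraMap R L (algebraMap ℚ R ((k : ℚ)⁻¹))) * (k : L) * x := by rw [h1, one_mul]
    _ = 0 := by rw [mul_assoc, h, mul_zero]

theorem V2r (hmin : S_MIN.{u, w}) (hC : Core z v O t xi) (hG : Gram z v O t xi) :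
    qq z v t 0 1 * (GG z t 0 1 2 3 ^ 5 * Xi xi) = 0 := by
  have h := isZ_ev (cen := cenV z v t) (odd := oddV z v t xi) _ chk2
  rw [addP_ev, certP_ev hmin hC hG, add_zero, ev, ev, add_zero, evT] at h
  have h2 := int_cancel R 4 (by norm_num) _ h
  simp only [evE, evW, pow_zero, one_mul, mul_one, pow_one, cenV, oddV] at h2
  rw [Xi]
  simp only [mul_assoc] at h2 ⊢
  exact h2

theorem V2 (hmin : S_MIN.{u, w}) (hC : Core z v O t xi) (hG : Gram z v O t xi) :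
    Xi xi * qq z v t 0 1 * GG z t 0 1 2 3 ^ 5 = 0 := by
  have hc : ∀ x : L, GG z t 0 1 2 3 ^ 5 * x = x * GG z t 0 1 2 3 ^ 5 := fun x =>
    (Commute.pow_left (hG.cG 0 1 2 3 x) 5)
  rw [← hG.cq 0 1 (Xi xi), mul_assoc, ← hc]
  exact V2r hmin hC hG

theorem V3 (hmin : S_MIN.{u, w}) (hC : Core z v O t xi) (hG : Gram z v O t xi) :
    Xi xi * GG z t 0 1 2 3 ^ 4 * (TT z v t 0 1 2 * TT z v t 0 1 3) = 0 := by
  have h := isZ_ev (cen := cenV z v t) (odd := oddV z v t xi) _ chk3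
  rw [addP_ev, certP_ev hmin hC hG, add_zero, ev, ev, add_zero, evT] at h
  have h2 := int_cancel R 4 (by norm_num) _ h
  simp only [evE, evW, pow_zero, one_mul, mul_one, cenV, oddV] at h2
  have hc : ∀ x : L, GG z t 0 1 2 3 ^ 4 * x = x * GG z t 0 1 2 3 ^ 4 := fun x =>
    (Commute.pow_left (hG.cG 0 1 2 3 x) 4)
  rw [hG.TT' 0 1 2 0 1 3, mul_neg, neg_eq_zero, ← hc, Xi]
  simp only [mul_assoc] at h2 ⊢
  exact h2

theorem V4 (hmin : S_MIN.{u, w}) (hC : Core z v O t xi) (hG : Gram z v O t xi) :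
    Xi xi * GG z t 0 1 2 3 ^ 3 *
      (TT z v t 1 2 3 * TT z v t 0 2 3 * TT z v t 0 1 3 * TT z v t 0 1 2) = 0 := by
  have h := isZ_ev (cen := cenV z v t) (odd := oddV z v t xi) _ chk4
  rw [addP_ev, certP_ev hmin hC hG, add_zero, ev, ev, add_zero, evT] at h
  have h2 := int_cancel R 2 (by norm_num) _ h
  simp only [evE, evW, pow_zero, one_mul, mul_one, cenV, oddV] at h2
  have hc : ∀ x : L, GG z t 0 1 2 3 ^ 3 * x = x * GG z t 0 1 2 3 ^ 3 := fun x =>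
    (Commute.pow_left (hG.cG 0 1 2 3 x) 3)
  rw [← hc, Xi]
  simp only [mul_assoc] at h2 ⊢
  exact h2

omit [Algebra ℚ R] in
theorem Core.perm (hC : Core z v O t xi) (σ : Fin 4 → Fin 4) :
    Core z v O (fun c => t (σ c)) xi where
  rk := hC.rk
  one := hC.one
  odd := hC.odd
  ht c i := hC.ht (σ c) i
  hx := hC.hx
  orth c := hC.orth (σ c)

theorem V1 (hmin : S_MIN.{u, w}) (hgr : S_GRAM.{u, w}) (hC : Core z v O t xi) :
    Xi xi * GG z t 0 1 2 3 ^ 6 = 0 := by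
  have hG := hgr R n L z v O t xi hC
  have h := isZ_ev (cen := cenV z v t) (odd := oddV z v t xi) _ chk1
  rw [addP_ev, certP_ev hmin hC hG, add_zero] at h
  simp only [ev, evT, evE, evW, pow_zero, one_mul, mul_one, cenV, oddV, pow_one, add_zero] at h
  have hc : ∀ x : L, GG z t 0 1 2 3 ^ 5 * x = x * GG z t 0 1 2 3 ^ 5 := fun x =>
    (Commute.pow_left (hG.cG 0 1 2 3 x) 5)
  have hc6 : ∀ x : L, GG z t 0 1 2 3 ^ 6 * x = x * GG z t 0 1 2 3 ^ 6 := fun x =>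
    (Commute.pow_left (hG.cG 0 1 2 3 x) 6)
  have a1 := V2r hmin hC hG
  have a2 := V2r hmin (hC.perm ![0, 2, 1, 3]) (hgr R n L z v O _ xi (hC.perm ![0, 2, 1, 3]))
  have a3 := V2r hmin (hC.perm ![0, 3, 2, 1]) (hgr R n L z v O _ xi (hC.perm ![0, 3, 2, 1]))
  have e2 : GG z (fun c => t ((![0, 2, 1, 3] : Fin 4 → Fin 4) c)) 0 1 2 3 = -GG z t 0 1 2 3 :=
    hG.G2 0 1 2 3
  have e3 : GG z (fun c => t ((![0, 3, 2, 1] : Fin 4 → Fin 4) c)) 0 1 2 3 = -GG z t 0 1 2 3 := by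
    show GG z t 0 3 2 1 = _
    rw [hG.G2 0 2 3 1, hG.G3 0 2 1 3, hG.G2 0 1 2 3, neg_neg]
  have q2 : qq z v (fun c => t ((![0, 2, 1, 3] : Fin 4 → Fin 4) c)) 0 1 = qq z v t 0 2 := rfl
  have q3 : qq z v (fun c => t ((![0, 3, 2, 1] : Fin 4 → Fin 4) c)) 0 1 = qq z v t 0 3 := rfl
  rw [e2, q2] at a2
  rw [e3, q3] at a3
  have o5 : (-GG z t 0 1 2 3) ^ 5 = -(GG z t 0 1 2 3 ^ 5) := Odd.neg_pow (by decide) _
  rw [o5, neg_mul, mul_neg, neg_eq_zero] at a2 a3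
  have hX : xi 0 * (xi 1 * (xi 2 * xi 3)) = Xi xi := by rw [Xi]; simp only [mul_assoc]
  rw [hX] at h
  have s1 : qq z v t 0 1 * (qq z v t 2 3 * (GG z t 0 1 2 3 ^ 5 * Xi xi)) = 0 := by
    rw [← mul_assoc, hG.cq 0 1, mul_assoc, a1, mul_zero]
  have s2 : qq z v t 0 2 * (qq z v t 1 3 * (GG z t 0 1 2 3 ^ 5 * Xi xi)) = 0 := by
    rw [← mul_assoc, hG.cq 0 2, mul_assoc, a2, mul_zero]
  have s3 : qq z v t 0 3 * (qq z v t 1 2 * (GG z t 0 1 2 3 ^ 5 * Xi xi)) = 0 := by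
    rw [← mul_assoc, hG.cq 0 3, mul_assoc, a3, mul_zero]
  simp only [mul_assoc, s1, s2, s3, mul_zero, add_zero, Int.cast_one, one_mul] at h
  rw [← hc6]
  exact h

end

/-- The core facts. -/
theorem t_CORE (hmin : S_MIN.{u, w}) (hgr : S_GRAM.{u, w}) : S_CORE.{u, w} := by
  intro R _ _ n L _ _ z v O t xi hC
  have hG := hgr R n L z v O t xi hC
  exact ⟨V2 hmin hC hG, V3 hmin hC hG, V1 hmin hgr hC, V4 hmin hC hG⟩

end Pool.Agent.K1H40.CT
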