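import Mathlib

/-!
# A verified normal form engine for supercommutative computations
-/

set_option autoImplicit false

namespace Pool.Agent.K1H40.CT

universe w

/-- A term: integer coefficient, exponents of the central generators, word in the odd
generators. -/
structure Tm where
  c : ℤ
  e : List ℕ
  w : List ℕ

/-- Values of the generators. -/
structure Val {L : Type w} [Ring L] (cen odd : ℕ → L) : Prop where
  cc : ∀ i (x : L), cen i * x = x * cen i
  anti : ∀ i j, odd i * odd j = -(odd j * odd i)
  sq : ∀ i, odd i * odd i = 0

section ev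

variable {L : Type w} [Ring L] (cen odd : ℕ → L)

def evE : List ℕ → ℕ → L
  | [], _ => 1
  | a :: l, i => cen i ^ a * evE l (i + 1)

def evW : List ℕ → L
  | [] => 1
  | a :: l => odd a * evW l

def evT (t : Tm) : L := (t.c : L) * (evE cen t.e 0 * evW odd t.w)

def ev : List Tm → L
  | [] => 0
  | t :: p => evT cen odd t + ev p

end ev

def addE : List ℕ → List ℕ → List ℕ
  | [], b => b
  | a, [] => a
  | x :: a, y :: b => (x + y) :: addE a b

def eqL : List ℕ → List ℕ → Bool
  | [], [] => true
  | x :: a, y :: b => Nat.beq x y && eqL a b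
  | _, _ => false

/-- insert an odd generator in a sorted word -/
def ins (x : ℕ) : List ℕ → Option (Bool × List ℕ)
  | [] => some (false, [x])
  | y :: l => bif Nat.blt x y then some (false, x :: y :: l) else
      bif Nat.beq x y then none else
      match ins x l with
      | none => none
      | some (s, l') => some (!s, y :: l')

def sortW : List ℕ → Option (Bool × List ℕ)
  | [] => some (false, [])
  | x :: l => match sortW l with
    | none => none
    | some (s, l') => match ins x l' with
      | none => none
      | some (s', l'') => some (Bool.xor s s', l'')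

/-- add a term with sorted word to a polynomial -/
def insT (t : Tm) : List Tm → List Tm
  | [] => [t]
  | u :: p => bif eqL t.e u.e && eqL t.w u.w then ⟨t.c + u.c, u.e, u.w⟩ :: p else u :: insT t p

def addP : List Tm → List Tm → List Tm
  | [], q => q
  | t :: p, q => insT t (addP p q)

/-- product of two terms, added to a polynomial -/
def mulT (s t : Tm) (acc : List Tm) : List Tm :=
  match sortW (s.w ++ t.w) with
  | none => acc
  | some (b, l) => insT ⟨bif b then -(s.c * t.c) else s.c * t.c, addE s.e t.e, l⟩ acc

def mulTP (s : Tm) : List Tm → List Tm → List Tm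
  | [], acc => acc
  | t :: q, acc => mulT s t (mulTP s q acc)

def mulP : List Tm → List Tm → List Tm
  | [], _ => []
  | s :: p, q => mulTP s q (mulP p q)

def negP : List Tm → List Tm
  | [] => []
  | t :: p => ⟨-t.c, t.e, t.w⟩ :: negP p

def sgnP (j : ℕ) (p : List Tm) : List Tm := bif Nat.beq (j % 2) 0 then p else negP p

def isZ : List Tm → Bool
  | [] => true
  | t :: p => (t.c == 0) && isZ p

def emp {α : Type} : List α → Bool
  | [] => true
  | _ => false

/-- drop zero terms -/
def clean : List Tm → List Tm
  | [] => []
  | t :: p => bif t.c == 0 then clean p else t :: clean p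

def detLP : ℕ → List (List (List Tm)) → List Tm
  | 0, _ => [⟨1, [], []⟩]
  | _ + 1, [] => []
  | n + 1, row :: rest => (List.range (n + 1)).foldr (fun j acc =>
      bif emp (row.getD j []) then acc else
        addP (mulP (sgnP j (row.getD j [])) (clean (detLP n (rest.map fun r => r.eraseIdx j)))) acc) []

section lemmas

variable {L : Type w} [Ring L] {cen odd : ℕ → L}

theorem eqL_eq : ∀ {a b : List ℕ}, eqL a b = true → a = b
  | [], [], _ => rfl
  | [], _ :: _, h => by simp [eqL] at h
  | _ :: _, [], h => by simp [eqL] at h
  | x :: a, y :: b, h => by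
    simp only [eqL, Bool.and_eq_true] at h
    rw [Nat.eq_of_beq_eq_true h.1, eqL_eq h.2]

theorem evE_comm (h : Val cen odd) : ∀ (a : List ℕ) (i : ℕ) (x : L),
    evE cen a i * x = x * evE cen a i
  | [], _, x => by simp [evE]
  | a :: l, i, x => by
    have h1 : cen i ^ a * x = x * cen i ^ a := (Commute.pow_left (h.cc i x) a)
    rw [evE, mul_assoc, evE_comm h l (i + 1) x, ← mul_assoc, h1, mul_assoc]

theorem evE_add (h : Val cen odd) : ∀ (a b : List ℕ) (i : ℕ),
    evE cen (addE a b) i = evE cen a i * evE cen b i
  | [], b, i => by simp [addE, evE]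
  | x :: a, [], i => by simp [addE, evE]
  | x :: a, y :: b, i => by
    rw [addE, evE, evE, evE, evE_add h a b (i + 1), pow_add]
    have h1 : cen i ^ y * evE cen a (i + 1) = evE cen a (i + 1) * cen i ^ y :=
      (evE_comm h a (i + 1) _).symm
    rw [mul_assoc, mul_assoc, ← mul_assoc (cen i ^ y), h1]
    simp only [mul_assoc]

theorem evW_append : ∀ (a b : List ℕ), evW odd (a ++ b) = evW odd a * evW odd b
  | [], b => by simp [evW]
  | x :: a, b => by rw [List.cons_append, evW, evW, evW_append a b, mul_assoc]

/-- value of an optional signed word -/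
def evO (odd : ℕ → L) : Option (Bool × List ℕ) → L
  | none => 0
  | some (s, l) => bif s then -(evW odd l) else evW odd l

theorem ins_ev (h : Val cen odd) (x : ℕ) : ∀ l : List ℕ,
    evO odd (ins x l) = odd x * evW odd l
  | [] => by simp [ins, evO, evW]
  | y :: l => by
    rw [ins]
    cases h1 : Nat.blt x y with
    | true => simp [evO, evW]
    | false =>
      cases h2 : Nat.beq x y with
      | true =>
        have : x = y := Nat.eq_of_beq_eq_true h2
        subst this
        simp only [cond_true, cond_false, evO, evW]
        rw [← mul_assoc, h.sq, zero_mul]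
      | false =>
        simp only [cond_false]
        have ih := ins_ev h x l
        rw [evW, ← mul_assoc, h.anti x y, neg_mul, mul_assoc, ← ih]
        cases h3 : ins x l with
        | none => simp [evO]
        | some sl =>
          obtain ⟨s, l'⟩ := sl
          cases s <;> simp [evO, evW]

theorem sortW_ev (h : Val cen odd) : ∀ l : List ℕ, evO odd (sortW l) = evW odd l
  | [] => by simp [sortW, evO, evW]
  | x :: l => by
    have ih := sortW_ev h l
    rw [sortW, evW, ← ih]
    cases h1 : sortW l with
    | none => simp [evO]
    | some sl =>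
      obtain ⟨s, l'⟩ := sl
      have ih2 := ins_ev h x l'
      simp only
      cases h2 : ins x l' with
      | none =>
        rw [h2] at ih2
        simp only [evO] at ih2 ⊢
        cases s <;> simp [← ih2]
      | some sl2 =>
        obtain ⟨s', l''⟩ := sl2
        rw [h2] at ih2
        simp only [evO] at ih2 ⊢
        cases s <;> cases s' <;> simp_all
        rw [← ih2, neg_neg]

theorem insT_ev (t : Tm) : ∀ p : List Tm, ev cen odd (insT t p) = evT cen odd t + ev cen odd p
  | [] => by simp [insT, ev]
  | u :: p => by
    rw [insT]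
    cases h : (eqL t.e u.e && eqL t.w u.w) with
    | true =>
      rw [Bool.and_eq_true] at h
      have h1 := eqL_eq h.1
      have h2 := eqL_eq h.2
      simp only [cond_true, ev, evT, h1, h2, Int.cast_add, add_mul]
      abel
    | false =>
      simp only [cond_false, ev, insT_ev t p]
      abel

theorem addP_ev : ∀ p q : List Tm, ev cen odd (addP p q) = ev cen odd p + ev cen odd q
  | [], q => by simp [addP, ev]
  | t :: p, q => by rw [addP, insT_ev, addP_ev p q, ev, add_assoc]

theorem mulT_ev (h : Val cen odd) (s t : Tm) (acc : List Tm) :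
    ev cen odd (mulT s t acc) = evT cen odd s * evT cen odd t + ev cen odd acc := by
  have key : evT cen odd s * evT cen odd t =
      ((s.c * t.c : ℤ) : L) * (evE cen (addE s.e t.e) 0 * evW odd (s.w ++ t.w)) := by
    rw [evT, evT, evE_add h, evW_append, Int.cast_mul]
    have h1 : (s.c : L) * (evE cen s.e 0 * evW odd s.w) * ((t.c : L) * (evE cen t.e 0 * evW odd t.w))
        = (s.c : L) * ((evE cen s.e 0 * evW odd s.w) * (t.c : L)) * (evE cen t.e 0 * evW odd t.w) := by
      simp only [mul_assoc]
    have h2 : (evE cen s.e 0 * evW odd s.w) * (t.c : L) = (t.c : L) * (evE cen s.e 0 * evW odd s.w) :=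
      (Int.cast_commute t.c _).eq.symm
    rw [h1, h2]
    have h3 : evW odd s.w * evE cen t.e 0 = evE cen t.e 0 * evW odd s.w :=
      (evE_comm h t.e 0 _).symm
    calc (s.c : L) * ((t.c : L) * (evE cen s.e 0 * evW odd s.w)) * (evE cen t.e 0 * evW odd t.w)
        = (s.c : L) * (t.c : L) * (evE cen s.e 0 * (evW odd s.w * evE cen t.e 0) * evW odd t.w) := by
          simp only [mul_assoc]
      _ = _ := by rw [h3]; simp only [mul_assoc]
  rw [key, ← sortW_ev h, mulT]
  cases h1 : sortW (s.w ++ t.w) with
  | none => simp [evO]
  | some sl =>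
    obtain ⟨b, l⟩ := sl
    simp only [insT_ev, evT, evO]
    cases b <;> simp

theorem mulTP_ev (h : Val cen odd) (s : Tm) : ∀ q acc : List Tm,
    ev cen odd (mulTP s q acc) = evT cen odd s * ev cen odd q + ev cen odd acc
  | [], acc => by simp [mulTP, ev]
  | t :: q, acc => by
    rw [mulTP, mulT_ev h, mulTP_ev h s q acc, ev, mul_add, add_assoc]

theorem mulP_ev (h : Val cen odd) : ∀ p q : List Tm,
    ev cen odd (mulP p q) = ev cen odd p * ev cen odd q
  | [], q => by simp [mulP, ev]
  | s :: p, q => by rw [mulP, mulTP_ev h, mulP_ev h p q, ev, add_mul]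

theorem negP_ev : ∀ p : List Tm, ev cen odd (negP p) = -ev cen odd p
  | [] => by simp [negP, ev]
  | t :: p => by
    rw [negP, ev, ev, negP_ev p]
    simp only [evT, Int.cast_neg, neg_mul]
    abel

theorem sgnP_ev (j : ℕ) (p : List Tm) : ev cen odd (sgnP j p) = (-1) ^ j * ev cen odd p := by
  rw [sgnP]
  cases h : Nat.beq (j % 2) 0 with
  | true =>
    have h1 : j % 2 = 0 := Nat.eq_of_beq_eq_true h
    have h2 : Even j := Nat.even_iff.mpr h1
    simp [h2.neg_one_pow]
  | false =>
    have h1 : j % 2 ≠ 0 := Nat.ne_of_beq_eq_false h
    have h2 : Odd j := Nat.odd_iff.mpr (by omega)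
    simp [h2.neg_one_pow, negP_ev]

theorem isZ_ev : ∀ p : List Tm, isZ p = true → ev cen odd p = 0
  | [], _ => rfl
  | t :: p, h => by
    simp only [isZ, Bool.and_eq_true, beq_iff_eq] at h
    rw [ev, isZ_ev p h.2, evT, h.1]
    simp

theorem clean_ev : ∀ p : List Tm, ev cen odd (clean p) = ev cen odd p
  | [] => rfl
  | t :: p => by
    rw [clean]
    cases h : (t.c == 0) with
    | true =>
      have h1 : t.c = 0 := by simpa using h
      simp [ev, evT, h1, clean_ev p]
    | false => simp [ev, clean_ev p]

theorem emp_ev (p : List Tm) (h : emp p = true) : p = [] := by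
  cases p with
  | nil => rfl
  | cons a b => simp [emp] at h

theorem eraseIdx_ofFn {α : Type} {n : ℕ} (f : Fin (n + 1) → α) (j : Fin (n + 1)) :
    (List.ofFn f).eraseIdx j = List.ofFn fun i => f (j.succAbove i) := by
  apply List.ext_getElem
  · simp [List.length_eraseIdx, j.isLt]
  · intro i h1 h2
    have hi : i < n := by simpa using h2
    rw [List.getElem_eraseIdx]
    split_ifs with h
    · simp only [List.getElem_ofFn]
      congr 1
      rw [Fin.succAbove_of_castSucc_lt]
      · rfl
      · exact Fin.lt_def.mpr h
    · simp only [List.getElem_ofFn]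
      congr 1
      rw [Fin.succAbove_of_le_castSucc]
      · rfl
      · exact Fin.le_def.mpr (not_lt.mp h)

theorem foldr_ev (g : ℕ → L) (f : ℕ → List Tm → List Tm)
    (hf : ∀ j acc, ev cen odd (f j acc) = g j + ev cen odd acc) : ∀ l : List ℕ,
    ev cen odd (l.foldr f []) = (l.map g).sum
  | [] => by simp [ev]
  | j :: l => by
    rw [List.foldr_cons, hf, foldr_ev g f hf l, List.map_cons, List.sum_cons]

theorem range_sum (g : ℕ → L) : ∀ N : ℕ, ((List.range N).map g).sum = ∑ j ∈ Finset.range N, g j
  | 0 => by simp
  | N + 1 => by
    rw [List.range_succ, List.map_append, List.sum_append, range_sum g N, Finset.sum_range_succ]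
    simp

theorem detLP_ev (h : Val cen odd) : ∀ (n : ℕ) (M : Fin n → Fin n → List Tm)
    (m : Matrix (Fin n) (Fin n) (Subring.center L)),
    (∀ i j, ((m i j : Subring.center L) : L) = ev cen odd (M i j)) →
    ev cen odd (detLP n (List.ofFn fun i => List.ofFn (M i))) = ((m.det : Subring.center L) : L)
  | 0, M, m, _ => by simp [detLP, ev, evT, evE, evW]
  | n + 1, M, m, hm => by
    rw [List.ofFn_succ, detLP]
    rw [foldr_ev (fun j => ev cen odd (sgnP j ((List.ofFn (M 0)).getD j [])) *
      ev cen odd (detLP n ((List.ofFn fun i : Fin n => List.ofFn (M i.succ)).map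
        fun r => r.eraseIdx j))), range_sum, Finset.sum_range]
    · rw [Matrix.det_succ_row_zero]
      have hc : ∀ s : Finset (Fin (n + 1)), ∀ F : Fin (n + 1) → Subring.center L,
          ((∑ j ∈ s, F j : Subring.center L) : L) = ∑ j ∈ s, (F j : L) := by
        intro s F
        exact map_sum (Subring.center L).subtype F s
      rw [hc]
      refine Finset.sum_congr rfl fun j _ => ?_
      have h1 : (List.ofFn (M 0)).getD (j : ℕ) [] = M 0 j := by
        rw [List.getD_eq_getElem _ _ (by rw [List.length_ofFn]; exact j.isLt), List.getElem_ofFn]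
      have h2 : (List.ofFn fun i : Fin n => List.ofFn (M i.succ)).map
          (fun r => r.eraseIdx (j : ℕ)) = List.ofFn fun i : Fin n => List.ofFn
            fun k : Fin n => M i.succ (j.succAbove k) := by
        rw [List.map_ofFn]
        congr 1
        funext i
        exact eraseIdx_ofFn (M i.succ) j
      rw [h1, h2, detLP_ev h n (fun i k => M i.succ (j.succAbove k))
        (m.submatrix Fin.succ j.succAbove) (fun i k => hm i.succ (j.succAbove k)), sgnP_ev,
        ← hm 0 j]
      push_cast
      rfl
    · intro j acc
      cases h1 : emp ((List.ofFn (M 0)).getD j []) with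
      | true =>
        have h2 := emp_ev _ h1
        simp only [cond_true, h2]
        rw [sgnP_ev]
        simp [ev]
      | false =>
        simp only [cond_false]
        rw [addP_ev, mulP_ev h, clean_ev]

end lemmas

end Pool.Agent.K1H40.CT
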