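import Pool.Agent.K1H40.CT.Stm
import Pool.Agent.K1H40.CT.Eng

/-!
# The symbolic Gram matrix and the vanishing of symbolic minors
-/

set_option autoImplicit false

namespace Pool.Agent.K1H40.CT

universe u w

/-- Symbolic vectors: `v ⊗ v`, `v ⊗ ξ_s θ^a`, `θ^a ⊗ θ^b` (`k` the index of the pair `a < b`). -/
inductive V
  | e : V
  | x (s a : Fin 4) : V
  | P (k : Fin 6) : V

/-- first label of the pair of index `k` -/
def pa (k : Fin 6) : Fin 4 :=
  match k with
  | 0 => 0 | 1 => 0 | 2 => 0 | 3 => 1 | 4 => 1 | 5 => 2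

/-- second label of the pair of index `k` -/
def pb (k : Fin 6) : Fin 4 :=
  match k with
  | 0 => 1 | 1 => 2 | 2 => 3 | 3 => 2 | 4 => 3 | 5 => 3

def unitE (i : ℕ) : List ℕ := List.replicate i 0 ++ [1]

/-- `q` of the pair `k` -/
def qK (k : Fin 6) : List Tm := [⟨1, unitE k.1, []⟩]

/-- index of the pair of labels `lo < hi` -/
def pidx (lo hi : ℕ) : ℕ := bif Nat.beq lo 0 then hi - 1 else lo + hi

def qP (c : ℤ) (pre : List ℕ) (a b : Fin 4) : List Tm :=
  bif Nat.blt a.1 b.1 then [⟨c, unitE (pidx a.1 b.1), pre⟩] else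
  bif Nat.blt b.1 a.1 then [⟨-c, unitE (pidx b.1 a.1), pre⟩] else []

/-- `ξ_s T_{a, pair k}` -/
def TP (s : ℕ) (a : Fin 4) (k : Fin 6) : List Tm :=
  let b := pa k
  let c := pb k
  bif Nat.beq a.1 b.1 || Nat.beq a.1 c.1 then [] else
  [⟨bif Nat.blt b.1 a.1 && Nat.blt a.1 c.1 then -1 else 1, [], [s, 4 + (6 - a.1 - b.1 - c.1)]⟩]

def gP (k l : Fin 6) : List Tm :=
  bif Nat.beq (k.1 + l.1) 5 then
    [⟨bif Nat.beq k.1 1 || Nat.beq k.1 4 then -1 else 1, [0, 0, 0, 0, 0, 0, 1], []⟩] else []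

/-- symbolic Gram matrix -/
def Bs : V → V → List Tm
  | V.e, V.e => [⟨1, [], []⟩]
  | V.e, V.P k => qK k
  | V.P k, V.e => qK k
  | V.e, V.x _ _ => []
  | V.x _ _, V.e => []
  | V.P k, V.P l => gP k l
  | V.x s a, V.P k => TP s.1 a k
  | V.P k, V.x s a => TP s.1 a k
  | V.x s a, V.x s' b => qP (-1) [s.1, s'.1] a b

section

variable {R : Type u} [CommRing R] {n : ℕ} {L : Type w} [Ring L] [Algebra R L]
  (z : Fin n → Fin n → Fin n → Fin n → R) (v : Fin n → R) (O : Set L)
  (t : Fin 4 → Fin n → L) (xi : Fin 4 → L)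

/-- values of the central generators -/
def cenV (i : ℕ) : L :=
  match i with
  | 0 => qq z v t 0 1
  | 1 => qq z v t 0 2
  | 2 => qq z v t 0 3
  | 3 => qq z v t 1 2
  | 4 => qq z v t 1 3
  | 5 => qq z v t 2 3
  | 6 => GG z t 0 1 2 3
  | _ => 0

/-- values of the odd generators -/
def oddV (i : ℕ) : L :=
  match i with
  | 0 => xi 0
  | 1 => xi 1
  | 2 => xi 2
  | 3 => xi 3
  | 4 => TT z v t 1 2 3
  | 5 => TT z v t 0 2 3
  | 6 => TT z v t 0 1 3
  | 7 => TT z v t 0 1 2
  | _ => 0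

variable {z v O t xi}

theorem oddV_cases (i : ℕ) : (∃ s, oddV z v t xi i = xi s) ∨
    (∃ a b c, oddV z v t xi i = TT z v t a b c) ∨ oddV z v t xi i = 0 := by
  match i with
  | 0 => exact Or.inl ⟨0, rfl⟩
  | 1 => exact Or.inl ⟨1, rfl⟩
  | 2 => exact Or.inl ⟨2, rfl⟩
  | 3 => exact Or.inl ⟨3, rfl⟩
  | 4 => exact Or.inr (Or.inl ⟨1, 2, 3, rfl⟩)
  | 5 => exact Or.inr (Or.inl ⟨0, 2, 3, rfl⟩)
  | 6 => exact Or.inr (Or.inl ⟨0, 1, 3, rfl⟩)
  | 7 => exact Or.inr (Or.inl ⟨0, 1, 2, rfl⟩)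
  | (k + 8) => exact Or.inr (Or.inr rfl)

theorem val (hC : Core z v O t xi) (hG : Gram z v O t xi) :
    Val (cenV z v t) (oddV z v t xi) where
  cc i x := by
    match i with
    | 0 => exact hG.cq 0 1 x
    | 1 => exact hG.cq 0 2 x
    | 2 => exact hG.cq 0 3 x
    | 3 => exact hG.cq 1 2 x
    | 4 => exact hG.cq 1 3 x
    | 5 => exact hG.cq 2 3 x
    | 6 => exact hG.cG 0 1 2 3 x
    | (k + 7) => show (0 : L) * x = x * 0; simp
  anti i j := by
    rcases oddV_cases (z := z) (v := v) (t := t) (xi := xi) i with ⟨s, h⟩ | ⟨a, b, c, h⟩ | h <;>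
    rcases oddV_cases (z := z) (v := v) (t := t) (xi := xi) j with ⟨s', h'⟩ | ⟨a', b', c', h'⟩ | h' <;>
    rw [h, h']
    · exact hC.odd.anti _ (hC.hx s) _ (hC.hx s')
    · exact hG.aT _ _ _ _ (hC.hx s)
    · simp
    · rw [hG.aT _ _ _ _ (hC.hx s'), neg_neg]
    · exact hG.TT' _ _ _ _ _ _
    · simp
    · simp
    · simp
    · simp
  sq i := by
    rcases oddV_cases (z := z) (v := v) (t := t) (xi := xi) i with ⟨s, h⟩ | ⟨a, b, c, h⟩ | h <;> rw [h]
    · exact hC.odd.sq _ (hC.hx s)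
    · exact hG.sT _ _ _
    · simp

variable (xi) in
/-- the odd value of index `s < 4` -/
theorem oddV_xi (s : Fin 4) : oddV z v t xi s.1 = xi s := by
  fin_cases s <;> rfl

theorem ev_qK (k : Fin 6) :
    ev (cenV z v t) (oddV z v t xi) (qK k) = qq z v t (pa k) (pb k) := by
  fin_cases k <;>
    simp [qK, unitE, pa, pb, ev, evT, evE, evW, cenV, List.replicate]

theorem ev_qP (hG : Gram z v O t xi) (s s' : Fin 4) (a b : Fin 4) :
    ev (cenV z v t) (oddV z v t xi) (qP (-1) [s.1, s'.1] a b) =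
      -(xi s * xi s' * qq z v t a b) := by
  have e0 := hG.q0
  have e1 := hG.q1
  have ec := hG.cq
  fin_cases a <;> fin_cases b <;>
    simp [qP, pidx, unitE, Nat.blt, Nat.ble, Nat.beq, ev, evT, evE, evW, cenV, List.replicate, e0,
      oddV_xi] <;>
    (first
      | (rw [ec, e1 0 1, mul_neg, neg_neg])
      | (rw [ec, e1 0 2, mul_neg, neg_neg])
      | (rw [ec, e1 0 3, mul_neg, neg_neg])
      | (rw [ec, e1 1 2, mul_neg, neg_neg])
      | (rw [ec, e1 1 3, mul_neg, neg_neg])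
      | (rw [ec, e1 2 3, mul_neg, neg_neg])
      | (rw [ec]))

theorem ev_gP (hG : Gram z v O t xi) (k l : Fin 6) :
    ev (cenV z v t) (oddV z v t xi) (gP k l) = GG z t (pa k) (pb k) (pa l) (pb l) := by
  have p23 : ∀ a b c, GG z t b a a c = 0 := hG.G0'
  have p13 : ∀ a b c, GG z t a b a c = 0 := by
    intro a b c; rw [hG.G2, hG.G0, neg_zero]
  have p14 : ∀ a b c, GG z t a b c a = 0 := by
    intro a b c; rw [hG.G3, p13, neg_zero]
  have p24 : ∀ a b c, GG z t b a c a = 0 := by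
    intro a b c; rw [hG.G3, p23, neg_zero]
  have h1 : GG z t 0 2 1 3 = -GG z t 0 1 2 3 := hG.G2 0 1 2 3
  have h2 : GG z t 0 3 1 2 = GG z t 0 1 2 3 := by
    rw [hG.G2 0 1 3 2, hG.G3 0 1 2 3, neg_neg]
  have h3 : GG z t 1 2 0 3 = GG z t 0 1 2 3 := by
    rw [hG.G2 1 0 2 3, hG.G1 0 1 2 3, neg_neg]
  have h4 : GG z t 1 3 0 2 = -GG z t 0 1 2 3 := by
    rw [hG.G2 1 0 3 2, hG.G1 0 1 3 2, hG.G3 0 1 2 3, neg_neg]
  have h5 : GG z t 2 3 0 1 = GG z t 0 1 2 3 := by
    rw [hG.G2 2 0 3 1, hG.G1 0 2 3 1, hG.G3 0 2 1 3, h1]; simp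
  fin_cases k <;> fin_cases l <;>
    simp [gP, pa, pb, Nat.beq, ev, evT, evE, evW, cenV, p23, p13, p14, p24, h1, h2, h3, h4, h5]

theorem ev_TP (hG : Gram z v O t xi) (s : Fin 4) (a : Fin 4) (k : Fin 6) :
    ev (cenV z v t) (oddV z v t xi) (TP s.1 a k) = xi s * TT z v t a (pa k) (pb k) := by
  have p1 : ∀ a b, TT z v t a a b = 0 := hG.T0
  have p2 : ∀ a b, TT z v t a b a = 0 := by
    intro a b; rw [hG.T2, hG.T0, neg_zero]
  have m1 : ∀ a b c, TT z v t b a c = -TT z v t a b c := hG.T1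
  have m2 : ∀ a b c, TT z v t c a b = TT z v t a b c := by
    intro a b c; rw [hG.T1, hG.T2, neg_neg]
  have h1 := m1 0 1 2
  have h2 := m1 0 1 3
  have h3 := m1 0 2 3
  have h4 := m1 1 2 3
  have h5 := m2 0 1 2
  have h6 := m2 0 1 3
  have h7 := m2 0 2 3
  have h8 := m2 1 2 3
  have o4 : oddV z v t xi 4 = TT z v t 1 2 3 := rfl
  have o5 : oddV z v t xi 5 = TT z v t 0 2 3 := rfl
  have o6 : oddV z v t xi 6 = TT z v t 0 1 3 := rfl
  have o7 : oddV z v t xi 7 = TT z v t 0 1 2 := rfl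
  fin_cases a <;> fin_cases k <;>
    simp [TP, pa, pb, Nat.beq, Nat.blt, Nat.ble, ev, evT, evE, evW, oddV_xi, p1, p2, h1, h2,
      h3, h4, h5, h6, h7, h8, o4, o5, o6, o7]

/-- value of a symbolic vector -/
def vecV (z : Fin n → Fin n → Fin n → Fin n → R) (v : Fin n → R) (t : Fin 4 → Fin n → L)
    (xi : Fin 4 → L) : V → Fin n → Fin n → L
  | V.e => ve L v
  | V.x s a => vx v t xi s a
  | V.P k => vP t (pa k) (pb k)

theorem ev_Bs (hG : Gram z v O t xi) (a b : V) :
    BB z (vecV z v t xi a) (vecV z v t xi b) = ev (cenV z v t) (oddV z v t xi) (Bs a b) := by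
  cases a <;> cases b
  · rw [vecV, hG.ee]; simp [Bs, ev, evT, evE, evW]
  · rw [vecV, vecV, hG.ex]; simp [Bs, ev]
  · rw [vecV, vecV, hG.eP, Bs, ev_qK]
  · rw [vecV, vecV, hG.xe]; simp [Bs, ev]
  · rw [vecV, vecV, hG.xx, Bs, ev_qP hG]
  · rw [vecV, vecV, hG.xP, Bs, ev_TP hG]
  · rw [vecV, vecV, hG.Pe, Bs, ev_qK]
  · rw [vecV, vecV, hG.Px, Bs, ev_TP hG]
  · rw [vecV, vecV, hG.PP, Bs, ev_gP hG]

theorem vecV_cen (hC : Core z v O t xi) (a : V) (i j : Fin n) :
    vecV z v t xi a i j ∈ Subring.center L := by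
  rw [Subring.mem_center_iff]
  intro g
  cases a with
  | e => exact (Algebra.commutes _ _).symm
  | x s a =>
    show g * (v i • (xi s * t a j)) = (v i • (xi s * t a j)) * g
    rw [mul_smul_comm, smul_mul_assoc, hC.odd.cen _ (hC.hx s) _ (hC.ht a j)]
  | P k => exact (hC.odd.cen _ (hC.ht _ i) _ (hC.ht _ j) g).symm

theorem rel (hmin : S_MIN.{u, w}) (hC : Core z v O t xi) (hG : Gram z v O t xi)
    (r c : Fin 7 → V) :
    ev (cenV z v t) (oddV z v t xi)
      (detLP 7 (List.ofFn fun i => List.ofFn fun j => Bs (r i) (c j))) = 0 := by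
  let _ : Algebra R (Subring.center L) :=
    ((algebraMap R L).codRestrict (Subring.center L) fun x => by
      rw [Subring.mem_center_iff]
      intro g
      exact (Algebra.commutes _ _).symm).toAlgebra
  let U : V → Fin n → Fin n → Subring.center L := fun a i j => ⟨vecV z v t xi a i j, vecV_cen hC a i j⟩
  have hU : ∀ a b, ((BB z (U a) (U b) : Subring.center L) : L) =
      BB z (vecV z v t xi a) (vecV z v t xi b) := by
    intro a b
    have hs : ∀ (x : R) (y : Subring.center L), ((x • y : Subring.center L) : L) = x • (y : L) := by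
      intro x y
      rw [Algebra.smul_def, Algebra.smul_def]
      rfl
    have hc : ∀ F : Fin n → Subring.center L,
        ((∑ j, F j : Subring.center L) : L) = ∑ j, (F j : L) := by
      intro F
      exact map_sum (Subring.center L).subtype F _
    simp only [BB, hc, hs]
    rfl
  have h := hmin R n z hC.rk (Subring.center L) (fun i => U (r i)) (fun j => U (c j))
  have h2 := detLP_ev (val hC hG) 7 (fun i j => Bs (r i) (c j))
    (Matrix.of fun i j => BB z (U (r i)) (U (c j))) (by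
      intro i j
      rw [Matrix.of_apply, hU, ev_Bs hG])
  rw [h2, h]
  rfl

/-- symbolic minor of lists of symbolic vectors -/
def minorL (r c : List V) : List Tm := clean (detLP 7 (r.map fun a => c.map (Bs a)))

/-- A certificate: a combination of minors. -/
def certP : List (Tm × List V × List V) → List Tm
  | [] => []
  | (m, r, c) :: l => bif Nat.beq r.length 7 && Nat.beq c.length 7 then
      addP (mulP [m] (minorL r c)) (certP l) else certP l

theorem certP_ev (hmin : S_MIN.{u, w}) (hC : Core z v O t xi) (hG : Gram z v O t xi) :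
    ∀ l, ev (cenV z v t) (oddV z v t xi) (certP l) = 0
  | [] => rfl
  | (m, r, c) :: l => by
    rw [certP]
    cases h : (Nat.beq r.length 7 && Nat.beq c.length 7) with
    | false => exact certP_ev hmin hC hG l
    | true =>
      rw [Bool.and_eq_true] at h
      have h1 := Nat.eq_of_beq_eq_true h.1
      have h2 := Nat.eq_of_beq_eq_true h.2
      simp only [cond_true]
      rw [addP_ev, certP_ev hmin hC hG l, mulP_ev (val hC hG), minorL, clean_ev]
      have h3 : (r.map fun a => c.map (Bs a)) =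
          List.ofFn fun i : Fin 7 => List.ofFn fun j : Fin 7 => Bs (r.getD i V.e) (c.getD j V.e) := by
        apply List.ext_getElem
        · simp [h1]
        · intro i g1 g2
          rw [List.getElem_ofFn, List.getElem_map]
          apply List.ext_getElem
          · simp [h2]
          · intro j g3 g4
            have gi : i < r.length := by simpa using g1
            have gj : j < c.length := by simpa using g3
            rw [List.getElem_ofFn, List.getElem_map, List.getD_eq_getElem _ _ gi,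
              List.getD_eq_getElem _ _ gj]
      rw [h3, rel hmin hC hG]
      simp

end

end Pool.Agent.K1H40.CT
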