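import Pool.Agent.W474.Cat.Defs

/-!
# Project CT: the `7 × 7` minors of the middle catalecticant of quartics in `n ≥ 7` variables
do not generate a saturated ideal in characteristic zero. Definitions and statements.
-/

set_option autoImplicit false

namespace Pool.Agent.K1H40.CT

open MvPolynomial Pool.Agent.W474.Cat

universe u w

/-- A symmetric tensor `z` of order four with values in `R`, all of whose `7 × 7` minors (rows and
columns indexed by pairs) vanish. -/
structure Rk6 {R : Type u} [CommRing R] {n : ℕ}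
    (z : Fin n → Fin n → Fin n → Fin n → R) : Prop where
  s1 : ∀ a b c d, z a b c d = z b a c d
  s2 : ∀ a b c d, z a b c d = z a c b d
  s3 : ∀ a b c d, z a b c d = z a b d c
  minor : ∀ r c : Fin 7 → Fin n × Fin n,
    (Matrix.of fun i j => z (r i).1 (r i).2 (c j).1 (c j).2).det = 0

/-- Determinant of the `0/1` matrix of a self map of `Fin 7`: its sign if it is a permutation,
zero otherwise. -/
def sg (g : Fin 7 → Fin 7) : ℤ := (Matrix.of fun j i : Fin 7 => if g j = i then (1 : ℤ) else 0).det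

/-- Product of the four signs of the columns of `m`. -/
def eps (m : Fin 7 → Fin 4 → Fin 7) : ℤ := ∏ c, sg (fun j => m j c)

/-- The first hyperdeterminant of the part of the tensor `z` indexed by the image of `e`,
times `7!`. -/
def hd {R : Type u} [CommRing R] {n : ℕ} (e : Fin 7 → Fin n)
    (z : Fin n → Fin n → Fin n → Fin n → R) : R :=
  ∑ m : Fin 7 → Fin 4 → Fin 7,
    (eps m : R) * ∏ j, z (e (m j 0)) (e (m j 1)) (e (m j 2)) (e (m j 3))

/-- `F(x, y, s, t)` for the tensor `z` and vectors with entries in an `R`-algebra `L`. -/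
def FF {R : Type u} [CommRing R] {n : ℕ} {L : Type w} [Ring L] [Algebra R L]
    (z : Fin n → Fin n → Fin n → Fin n → R) (a b c d : Fin n → L) : L :=
  ∑ i, ∑ j, ∑ k, ∑ l, z i j k l • (a i * b j * c k * d l)

/-- A set of pairwise anticommuting elements with square zero, whose products of two elements
are central. -/
structure OddSet {L : Type w} [Ring L] (O : Set L) : Prop where
  anti : ∀ x ∈ O, ∀ y ∈ O, x * y = -(y * x)
  sq : ∀ x ∈ O, x * x = 0
  cen : ∀ x ∈ O, ∀ y ∈ O, ∀ w : L, x * y * w = w * (x * y)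

/-- the constant vector `v` with values in `L` -/
def cv {R : Type u} [CommRing R] {n : ℕ} (L : Type w) [Ring L] [Algebra R L] (v : Fin n → R) :
    Fin n → L := fun i => algebraMap R L (v i)

section syms

variable {R : Type u} [CommRing R] {n : ℕ} {L : Type w} [Ring L] [Algebra R L]
  (z : Fin n → Fin n → Fin n → Fin n → R) (v : Fin n → R) (t : Fin 4 → Fin n → L)

/-- `q_ab = F(v, v, θ^a, θ^b)` -/
def qq (a b : Fin 4) : L := FF z (cv L v) (cv L v) (t a) (t b)
/-- `T_abc = F(v, θ^a, θ^b, θ^c)` -/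
def TT (a b c : Fin 4) : L := FF z (cv L v) (t a) (t b) (t c)
/-- `G_abcd = F(θ^a, θ^b, θ^c, θ^d)` -/
def GG (a b c d : Fin 4) : L := FF z (t a) (t b) (t c) (t d)

end syms

/-- The data of the core computation: a tensor of rank `≤ 6` with `F(v,v,v,v) = 1`, four families
`t c` of odd elements orthogonal to `v³`, and four more odd elements `xi`. -/
structure Core {R : Type u} [CommRing R] {n : ℕ} {L : Type w} [Ring L] [Algebra R L]
    (z : Fin n → Fin n → Fin n → Fin n → R) (v : Fin n → R) (O : Set L)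
    (t : Fin 4 → Fin n → L) (xi : Fin 4 → L) : Prop where
  rk : Rk6 z
  one : ∑ a, ∑ b, ∑ c, ∑ d, z a b c d * (v a * v b * v c * v d) = 1
  odd : OddSet O
  ht : ∀ c i, t c i ∈ O
  hx : ∀ s, xi s ∈ O
  orth : ∀ c, ∑ i, (∑ a, ∑ b, ∑ d, z a b d i * (v a * v b * v d)) • t c i = 0

/-- `Ξ = ξ₀ ξ₁ ξ₂ ξ₃` -/
def Xi {L : Type w} [Ring L] (xi : Fin 4 → L) : L := xi 0 * xi 1 * xi 2 * xi 3

/-- The bilinear form on pairs of indices. -/
def BB {R : Type u} [CommRing R] {n : ℕ} {L : Type w} [Ring L] [Algebra R L]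
    (z : Fin n → Fin n → Fin n → Fin n → R) (U W : Fin n → Fin n → L) : L :=
  ∑ i, ∑ j, ∑ k, ∑ l, z i j k l • (U i j * W k l)

/-- the vector `v ⊗ v` -/
def ve {R : Type u} [CommRing R] {n : ℕ} (L : Type w) [Ring L] [Algebra R L] (v : Fin n → R) :
    Fin n → Fin n → L := fun i j => algebraMap R L (v i * v j)

/-- the vector `θ^a ⊗ θ^b` -/
def vP {n : ℕ} {L : Type w} [Ring L] (t : Fin 4 → Fin n → L) (a b : Fin 4) :
    Fin n → Fin n → L := fun i j => t a i * t b j

/-- the vector `v ⊗ ξ_s θ^a` -/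
def vx {R : Type u} [CommRing R] {n : ℕ} {L : Type w} [Ring L] [Algebra R L] (v : Fin n → R)
    (t : Fin 4 → Fin n → L) (xi : Fin 4 → L) (s a : Fin 4) :
    Fin n → Fin n → L := fun i j => v i • (xi s * t a j)

/-- Minors with entries in a commutative algebra. -/
def S_MIN : Prop :=
  ∀ (R : Type u) [CommRing R] (n : ℕ) (z : Fin n → Fin n → Fin n → Fin n → R), Rk6 z →
    ∀ (E : Type w) [CommRing E] [Algebra R E] (U W : Fin 7 → Fin n → Fin n → E),
    (Matrix.of fun r s => BB z (U r) (W s)).det = 0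

/-- The Gram matrix and the commutation rules. -/
structure Gram {R : Type u} [CommRing R] {n : ℕ} {L : Type w} [Ring L] [Algebra R L]
    (z : Fin n → Fin n → Fin n → Fin n → R) (v : Fin n → R) (O : Set L)
    (t : Fin 4 → Fin n → L) (xi : Fin 4 → L) : Prop where
  ee : BB z (ve L v) (ve L v) = 1
  eP : ∀ a b, BB z (ve L v) (vP t a b) = qq z v t a b
  Pe : ∀ a b, BB z (vP t a b) (ve L v) = qq z v t a b
  ex : ∀ s a, BB z (ve L v) (vx v t xi s a) = 0
  xe : ∀ s a, BB z (vx v t xi s a) (ve L v) = 0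
  PP : ∀ a b c d, BB z (vP t a b) (vP t c d) = GG z t a b c d
  xP : ∀ s a b c, BB z (vx v t xi s a) (vP t b c) = xi s * TT z v t a b c
  Px : ∀ s a b c, BB z (vP t b c) (vx v t xi s a) = xi s * TT z v t a b c
  xx : ∀ s a s' b, BB z (vx v t xi s a) (vx v t xi s' b) = -(xi s * xi s' * qq z v t a b)
  q0 : ∀ a, qq z v t a a = 0
  q1 : ∀ a b, qq z v t b a = -qq z v t a b
  T0 : ∀ a b, TT z v t a a b = 0
  T0' : ∀ a b, TT z v t b a a = 0
  T1 : ∀ a b c, TT z v t b a c = -TT z v t a b c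
  T2 : ∀ a b c, TT z v t a c b = -TT z v t a b c
  G0 : ∀ a b c, GG z t a a b c = 0
  G0' : ∀ a b c, GG z t b a a c = 0
  G0'' : ∀ a b c, GG z t b c a a = 0
  G1 : ∀ a b c d, GG z t b a c d = -GG z t a b c d
  G2 : ∀ a b c d, GG z t a c b d = -GG z t a b c d
  G3 : ∀ a b c d, GG z t a b d c = -GG z t a b c d
  cq : ∀ a b (w : L), qq z v t a b * w = w * qq z v t a b
  cG : ∀ a b c d (w : L), GG z t a b c d * w = w * GG z t a b c d
  aT : ∀ a b c, ∀ x ∈ O, x * TT z v t a b c = -(TT z v t a b c * x)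
  TT' : ∀ a b c d e f, TT z v t a b c * TT z v t d e f = -(TT z v t d e f * TT z v t a b c)
  sT : ∀ a b c, TT z v t a b c * TT z v t a b c = 0

/-- All the rules hold. -/
def S_GRAM : Prop :=
  ∀ (R : Type u) [CommRing R] [Algebra ℚ R] (n : ℕ) (L : Type w) [Ring L] [Algebra R L]
    (z : Fin n → Fin n → Fin n → Fin n → R) (v : Fin n → R) (O : Set L)
    (t : Fin 4 → Fin n → L) (xi : Fin 4 → L), Core z v O t xi → Gram z v O t xi

/-- Core facts: four monomials vanish. -/
def S_CORE : Prop :=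
  ∀ (R : Type u) [CommRing R] [Algebra ℚ R] (n : ℕ) (L : Type w) [Ring L] [Algebra R L]
    (z : Fin n → Fin n → Fin n → Fin n → R) (v : Fin n → R) (O : Set L)
    (t : Fin 4 → Fin n → L) (xi : Fin 4 → L), Core z v O t xi →
    Xi xi * qq z v t 0 1 * GG z t 0 1 2 3 ^ 5 = 0 ∧
    Xi xi * GG z t 0 1 2 3 ^ 4 * (TT z v t 0 1 2 * TT z v t 0 1 3) = 0 ∧
    Xi xi * GG z t 0 1 2 3 ^ 6 = 0 ∧
    Xi xi * GG z t 0 1 2 3 ^ 3 *
      (TT z v t 1 2 3 * TT z v t 0 2 3 * TT z v t 0 1 3 * TT z v t 0 1 2) = 0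

/-- The seventh power vanishes. -/
def S_POW : Prop :=
  ∀ (R : Type u) [CommRing R] [Algebra ℚ R] (n : ℕ) (L : Type w) [Ring L] [Algebra R L]
    (z : Fin n → Fin n → Fin n → Fin n → R) (v : Fin n → R) (O : Set L)
    (t : Fin 4 → Fin n → L) (xi eta : Fin 4 → L), Core z v O t xi → (∀ c, eta c ∈ O) →
    Xi xi * (FF z (fun i => v i • eta 0 + t 0 i) (fun i => v i • eta 1 + t 1 i)
      (fun i => v i • eta 2 + t 2 i) (fun i => v i • eta 3 + t 3 i)) ^ 7 = 0

/-- Vanishing of the hyperdeterminant. -/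
def S_VAN : Prop :=
  ∀ (R : Type u) [CommRing R] [Algebra ℚ R] (n : ℕ) (e : Fin 7 → Fin n)
    (z : Fin n → Fin n → Fin n → Fin n → R) (v : Fin n → R), Rk6 z →
    ∑ a, ∑ b, ∑ c, ∑ d, z a b c d * (v a * v b * v c * v d) = 1 → hd e z = 0

/-- the exterior algebra used to prove `S_VAN` -/
abbrev Ex (R : Type u) [CommRing R] : Type u := ExteriorAlgebra R (Fin 4 × Fin 8 → R)

/-- its generators -/
noncomputable def ps (R : Type u) [CommRing R] (c : Fin 4) (j : Fin 8) : Ex R :=
  ExteriorAlgebra.ι R (Pi.single (c, j) 1)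

/-- `Θ^c_i`: the sum of the generators `ψ_{c, j}` over the `j < 7` with `e j = i`. -/
noncomputable def Th (R : Type u) [CommRing R] {n : ℕ} (e : Fin 7 → Fin n) (c : Fin 4)
    (i : Fin n) : Ex R :=
  ∑ j : Fin 7, if e j = i then ps R c j.castSucc else 0

/-- `W₀`, the ordered product of `ψ_{0j} ψ_{1j} ψ_{2j} ψ_{3j}` for `j = 0, …, 6`. -/
noncomputable def W0 (R : Type u) [CommRing R] : Ex R :=
  (List.ofFn fun j : Fin 7 => ps R 0 j.castSucc * ps R 1 j.castSucc * ps R 2 j.castSucc *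
    ps R 3 j.castSucc).prod

/-- `Φ⁷ = hd · W₀`, and its generalization: products over `j` of four generators with
prescribed indices. -/
def S_TOP1 : Prop :=
  ∀ (R : Type u) [CommRing R] (m : Fin 7 → Fin 4 → Fin 7),
    (List.ofFn fun j : Fin 7 => ps R 0 (m j 0).castSucc * ps R 1 (m j 1).castSucc *
      ps R 2 (m j 2).castSucc * ps R 3 (m j 3).castSucc).prod = (eps m : R) • W0 R

/-- `Φ⁷ = hd · W₀`. -/
def S_TOP2 : Prop :=
  ∀ (R : Type u) [CommRing R] (n : ℕ) (e : Fin 7 → Fin n)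
    (z : Fin n → Fin n → Fin n → Fin n → R),
    (FF z (Th R e 0) (Th R e 1) (Th R e 2) (Th R e 3)) ^ 7 = hd e z • W0 R

/-- `W₀ Ξ` has no torsion (`Ξ` the product of the last four generators). -/
def S_TOP3 : Prop :=
  ∀ (R : Type u) [CommRing R] (r : R),
    r • (Xi (fun c => ps R c (Fin.last 7)) * W0 R) = 0 → r = 0

/-- The exponent vector `e_a + e_b`. -/
def M2 {n : ℕ} (a b : Fin n) : Mon n 2 :=
  ⟨fun t => Pi.single (M := fun _ => ℕ) a 1 t + Pi.single (M := fun _ => ℕ) b 1 t, by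
    rw [Finset.sum_add_distrib]; simp⟩

/-- The generic symmetric tensor. -/
noncomputable def zX (k : Type u) [CommRing k] (n : ℕ) (a b c d : Fin n) :
    MvPolynomial (Mon n (2 + 2)) k := X ((M2 a b).add (M2 c d))

/-- `hd` of the generic tensor is not in the ideal of `7 × 7` minors. -/
def S_NOT : Prop :=
  ∀ (k : Type u) [Field k] [CharZero k] (n : ℕ) (e : Fin 7 → Fin n), Function.Injective e →
    hd e (zX k n) ∉ minorsIdeal k n 2 2 6

/-- Modulo the ideal of minors the generic tensor satisfies `Rk6`. -/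
def S_GEN : Prop :=
  ∀ (k : Type u) [Field k] (n : ℕ),
    Rk6 (fun a b c d => Ideal.Quotient.mk (minorsIdeal k n 2 2 6) (zX k n a b c d))

/-- A power of the irrelevant ideal multiplies `hd` of the generic tensor into the ideal. -/
def S_NIL : Prop :=
  ∀ (k : Type u) [Field k] [CharZero k] (n : ℕ) (e : Fin 7 → Fin n),
    ∃ N : ℕ, ∀ g ∈ irrelevant k n (2 + 2) ^ N, g * hd e (zX k n) ∈ minorsIdeal k n 2 2 6

end Pool.Agent.K1H40.CT
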