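import Pool.Agent.K1H40.CT.Charp

/-!
Project CT: the set of excluded characteristics does not depend on the number of variables.
-/

set_option autoImplicit false

namespace Pool.Agent.K1H40.CT.UF

open MvPolynomial Pool.Agent.W474.Cat Pool.Agent.K1H39.CT Pool.Agent.K1H31.CT

universe u

section eval

variable {R : Type u} [CommRing R] {n : ℕ}

omit [CommRing R] in
lemma sym_perm (z : Fin n → Fin n → Fin n → Fin n → R) (s1 : ∀ a b c d, z a b c d = z b a c d)
    (s2 : ∀ a b c d, z a b c d = z a c b d) (s3 : ∀ a b c d, z a b c d = z a b d c)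
    (σ : Equiv.Perm (Fin 4)) : ∀ w : Fin 4 → Fin n,
    z (w (σ 0)) (w (σ 1)) (w (σ 2)) (w (σ 3)) = z (w 0) (w 1) (w 2) (w 3) := by
  have hmem : σ ∈ Submonoid.closure
      (Set.range fun i : Fin 3 => Equiv.swap i.castSucc i.succ) := by
    rw [Equiv.Perm.mclosure_swap_castSucc_succ]
    trivial
  induction hmem using Submonoid.closure_induction with
  | mem x hx =>
      obtain ⟨i, rfl⟩ := hx
      intro w
      fin_cases i
      · exact (s1 _ _ _ _)
      · exact (s2 _ _ _ _)
      · exact (s3 _ _ _ _)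
  | one => intro w; rfl
  | mul x y _ _ hx hy =>
      intro w
      exact (hy (fun i => w (x i))).trans (hx w)

open Classical in
/-- the value of the variable `z_γ` -/
noncomputable def vz (z : Fin n → Fin n → Fin n → Fin n → R) (γ : Mon n (2 + 2)) : R :=
  if h : ∃ w : Fin 4 → Fin n, ∀ t, cnt w t = γ.1 t then
    z (h.choose 0) (h.choose 1) (h.choose 2) (h.choose 3) else 0

lemma vz_add {z : Fin n → Fin n → Fin n → Fin n → R} (hz : Rk6 z) (a b c d : Fin n) :
    vz z ((M2 a b).add (M2 c d)) = z a b c d := by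
  have h0 : ∀ t, cnt ![a, b, c, d] t = ((M2 a b).add (M2 c d)).1 t := by
    intro t
    unfold cnt
    simp only [M2, Mon.add, Pi.single_apply, Fin.sum_univ_four]
    show ((if a = t then 1 else 0) + (if b = t then 1 else 0) + (if c = t then 1 else 0) +
      (if d = t then 1 else 0)) = _
    rw [add_assoc (_ + _)]
    simp only [eq_comm]
  have h : ∃ w : Fin 4 → Fin n, ∀ t, cnt w t = ((M2 a b).add (M2 c d)).1 t := ⟨_, h0⟩
  unfold vz
  rw [dif_pos h]
  obtain ⟨σ, hσ⟩ := cnt_perm h.choose ![a, b, c, d] (fun t => (h.choose_spec t).trans (h0 t).symm)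
  rw [← hσ]
  exact sym_perm z hz.s1 hz.s2 hz.s3 σ ![a, b, c, d]

/-- evaluation of polynomials with integral coefficients at a tensor -/
noncomputable def et (z : Fin n → Fin n → Fin n → Fin n → R) :
    MvPolynomial (Mon n (2 + 2)) ℤ →+* R := eval₂Hom (Int.castRingHom R) (vz z)

lemma et_zX {z : Fin n → Fin n → Fin n → Fin n → R} (hz : Rk6 z) (a b c d : Fin n) :
    et z (zX ℤ n a b c d) = z a b c d := by
  unfold et zX
  rw [eval₂Hom_X', vz_add hz]

lemma et_mem {z : Fin n → Fin n → Fin n → Fin n → R} (hz : Rk6 z)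
    {h : MvPolynomial (Mon n (2 + 2)) ℤ} (hh : h ∈ minorsIdeal ℤ n 2 2 6) : et z h = 0 := by
  have hle : minorsIdeal ℤ n 2 2 6 ≤ RingHom.ker (et z) := by
    unfold minorsIdeal
    rw [Ideal.span_le]
    rintro g ⟨a, b, rfl⟩
    choose a1 a2 ha using fun i => exists_M2 (a i)
    choose b1 b2 hb using fun i => exists_M2 (b i)
    show ((catalecticant ℤ n 2 2).submatrix a b).det ∈ RingHom.ker (et z)
    rw [RingHom.mem_ker, RingHom.map_det, ← hz.minor (fun i => (a1 i, a2 i)) (fun j => (b1 j, b2 j))]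
    congr 1
    ext1 i j
    simp only [Matrix.of_apply]
    rw [← et_zX hz, RingHom.mapMatrix_apply, Matrix.map_apply, Matrix.submatrix_apply]
    unfold catalecticant zX
    rw [Matrix.of_apply, ha i, hb j]
  exact hle hh

lemma et_hd {z : Fin n → Fin n → Fin n → Fin n → R} (hz : Rk6 z) (e : Fin 7 → Fin n) :
    et z (hd e (zX ℤ n)) = hd e z := by
  unfold hd
  rw [map_sum]
  refine Finset.sum_congr rfl fun m _ => ?_
  rw [map_mul, map_intCast, map_prod]
  simp only [et_zX hz]

/-- pull back of a tensor along eight vectors -/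
def pb (z : Fin n → Fin n → Fin n → Fin n → R) (w : Fin 8 → Fin n → R) (a b c d : Fin 8) : R :=
  ∑ i, ∑ j, ∑ k, ∑ l, z i j k l * (w a i * w b j * w c k * w d l)

lemma pb_rk (hM : S_MIN.{u, u}) {z : Fin n → Fin n → Fin n → Fin n → R} (hz : Rk6 z)
    (w : Fin 8 → Fin n → R) : Rk6 (pb z w) := by
  refine ⟨fun a b c d => ?_, fun a b c d => ?_, fun a b c d => ?_, fun r c => ?_⟩
  · unfold pb
    rw [Finset.sum_comm]
    refine Finset.sum_congr rfl fun i _ => Finset.sum_congr rfl fun j _ =>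
      Finset.sum_congr rfl fun k _ => Finset.sum_congr rfl fun l _ => ?_
    rw [hz.s1]
    ring
  · unfold pb
    refine Finset.sum_congr rfl fun i _ => ?_
    rw [Finset.sum_comm]
    refine Finset.sum_congr rfl fun j _ =>
      Finset.sum_congr rfl fun k _ => Finset.sum_congr rfl fun l _ => ?_
    rw [hz.s2]
    ring
  · unfold pb
    refine Finset.sum_congr rfl fun i _ => Finset.sum_congr rfl fun j _ => ?_
    rw [Finset.sum_comm]
    refine Finset.sum_congr rfl fun k _ => Finset.sum_congr rfl fun l _ => ?_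
    rw [hz.s3]
    ring
  · rw [← hM R n z hz R (fun a i j => w (r a).1 i * w (r a).2 j) (fun b k l => w (c b).1 k * w (c b).2 l)]
    congr 1
    ext1 a b
    simp only [Matrix.of_apply]
    unfold pb BB
    refine Finset.sum_congr rfl fun i _ => Finset.sum_congr rfl fun j _ =>
      Finset.sum_congr rfl fun k _ => Finset.sum_congr rfl fun l _ => ?_
    rw [smul_eq_mul]
    ring

/-- seven unit vectors and `v` -/
def w8 (e : Fin 7 → Fin n) (v : Fin n → R) : Fin 8 → Fin n → R :=
  Fin.snoc (fun j => Pi.single (e j) 1) v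

lemma pb_unit (z : Fin n → Fin n → Fin n → Fin n → R) (e : Fin 7 → Fin n) (v : Fin n → R)
    (a b c d : Fin 7) :
    pb z (w8 e v) a.castSucc b.castSucc c.castSucc d.castSucc = z (e a) (e b) (e c) (e d) := by
  unfold pb w8
  simp only [Fin.snoc_castSucc]
  rw [Finset.sum_eq_single (e a), Finset.sum_eq_single (e b), Finset.sum_eq_single (e c),
    Finset.sum_eq_single (e d)]
  · simp
  · intro x _ hx
    rw [Pi.single_eq_of_ne hx]
    ring
  · intro h; exact absurd (Finset.mem_univ _) h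
  · intro x _ hx
    refine Finset.sum_eq_zero fun l _ => ?_
    rw [Pi.single_eq_of_ne hx]
    ring
  · intro h; exact absurd (Finset.mem_univ _) h
  · intro x _ hx
    refine Finset.sum_eq_zero fun k _ => Finset.sum_eq_zero fun l _ => ?_
    rw [Pi.single_eq_of_ne hx]
    ring
  · intro h; exact absurd (Finset.mem_univ _) h
  · intro x _ hx
    refine Finset.sum_eq_zero fun j _ => Finset.sum_eq_zero fun k _ => Finset.sum_eq_zero fun l _ => ?_
    rw [Pi.single_eq_of_ne hx]
    ring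
  · intro h; exact absurd (Finset.mem_univ _) h

end eval

/-- vanishing of the hyperdeterminant over the rings in which a fixed integer is invertible -/
theorem van_D (H : S_VAN.{0}) (hM : S_MIN.{u, u}) : ∃ D : ℤ, D ≠ 0 ∧
    ∀ (R : Type u) [CommRing R], IsUnit (D : R) → ∀ (n : ℕ) (e : Fin 7 → Fin n)
      (z : Fin n → Fin n → Fin n → Fin n → R) (v : Fin n → R), Rk6 z →
      ∑ a, ∑ b, ∑ c, ∑ d, z a b c d * (v a * v b * v c * v d) = 1 → hd e z = 0 := by
  obtain ⟨m, hm⟩ := zX_mem H ℚ 8 Fin.castSucc (Fin.last 7) (Fin.last 7) (Fin.last 7) (Fin.last 7)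
  rw [mem_J] at hm
  obtain ⟨D, hD, h, hh, he⟩ := clear_mem hm
  refine ⟨D, hD, ?_⟩
  intro R _ hu n e z v hz hv
  have h1 : (D : MvPolynomial (Mon 8 (2 + 2)) ℤ) *
      (zX ℤ 8 (Fin.last 7) (Fin.last 7) (Fin.last 7) (Fin.last 7) ^ m *
        hd Fin.castSucc (zX ℤ 8)) = h := by
    apply map_injective (Int.castRingHom ℚ) Int.cast_injective
    show rd ℚ 8 _ = rd ℚ 8 h
    rw [← he, map_mul, map_mul, map_pow, map_intCast, rd_hd, rd_zX]
  have hp := pb_rk hM hz (w8 e v)
  have h2 := et_mem hp hh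
  rw [← h1, map_mul, map_mul, map_pow, map_intCast, et_hd hp, et_zX hp] at h2
  have h3 : pb z (w8 e v) (Fin.last 7) (Fin.last 7) (Fin.last 7) (Fin.last 7) = 1 := by
    unfold pb w8
    simp only [Fin.snoc_last]
    exact hv
  have h4 : hd Fin.castSucc (pb z (w8 e v)) = hd e z := by
    unfold hd
    simp only [pb_unit]
  rw [h3, h4, one_pow, one_mul] at h2
  exact (hu.mul_right_eq_zero).1 h2

/-- the conclusion of `van_D` -/
def VanAt (D : ℤ) : Prop :=
  ∀ (R : Type u) [CommRing R], IsUnit (D : R) → ∀ (n : ℕ) (e : Fin 7 → Fin n)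
    (z : Fin n → Fin n → Fin n → Fin n → R) (v : Fin n → R), Rk6 z →
    ∑ a, ∑ b, ∑ c, ∑ d, z a b c d * (v a * v b * v c * v d) = 1 → hd e z = 0

theorem form_memD {D : ℤ} (H : VanAt.{u} D) (k : Type u) [Field k] (hk : (D : k) ≠ 0) (n : ℕ)
    (e : Fin 7 → Fin n) (v : Fin n → k) : G k n v v v v ∈ (J k n e).radical := by
  set I := minorsIdeal k n 2 2 6 with hI
  set s := G k n v v v v with hs
  set sb : MvPolynomial (Mon n (2 + 2)) k ⧸ I := Ideal.Quotient.mk I s with hsb
  let A : Type u := Localization.Away sb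
  set u : A := IsLocalization.Away.invSelf sb with hu
  set φ : MvPolynomial (Mon n (2 + 2)) k →+* A :=
    (algebraMap (MvPolynomial (Mon n (2 + 2)) k ⧸ I) A).comp (Ideal.Quotient.mk I) with hφ
  have hus : φ s * u = 1 := IsLocalization.Away.mul_invSelf sb
  have hD : IsUnit (D : A) := by
    have h1 : IsUnit (D : k) := isUnit_iff_ne_zero.2 hk
    have h2 := h1.map (φ.comp C)
    rwa [map_intCast] at h2
  have hg := t_GEN k n
  have hrk : Rk6 (fun a b c d => u * φ (zX k n a b c d)) := by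
    refine ⟨fun a b c d => ?_, fun a b c d => ?_, fun a b c d => ?_, fun r c => ?_⟩
    · rw [zX_s1 k n a b c d]
    · rw [zX_s2 k n a b c d]
    · rw [zX_s3 k n a b c d]
    · have h1 : (Matrix.of fun i j => u * φ (zX k n (r i).1 (r i).2 (c j).1 (c j).2)) =
          u • (algebraMap (MvPolynomial (Mon n (2 + 2)) k ⧸ I) A).mapMatrix
            (Matrix.of fun i j => Ideal.Quotient.mk I (zX k n (r i).1 (r i).2 (c j).1 (c j).2)) := by
        ext i j
        rfl
      rw [h1, Matrix.det_smul, ← RingHom.map_det, hg.minor r c, map_zero, mul_zero]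
  have hone : ∑ a, ∑ b, ∑ c, ∑ d, (fun a b c d => u * φ (zX k n a b c d)) a b c d *
      (φ (C (v a)) * φ (C (v b)) * φ (C (v c)) * φ (C (v d))) = 1 := by
    rw [← hus, hs]
    unfold G
    simp only [map_sum, map_mul, Finset.sum_mul]
    refine Finset.sum_congr rfl fun a _ => Finset.sum_congr rfl fun b _ =>
      Finset.sum_congr rfl fun c _ => Finset.sum_congr rfl fun d _ => ?_
    ring
  have hz := H A hD n e (fun a b c d => u * φ (zX k n a b c d)) (fun a => φ (C (v a))) hrk hone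
  rw [hd_map] at hz
  have hz' : φ (hd e (zX k n)) = 0 := by
    have h1 : φ (hd e (zX k n)) = φ s ^ 7 * (u ^ 7 * φ (hd e (zX k n))) := by
      rw [← mul_assoc, ← mul_pow, hus, one_pow, one_mul]
    rw [h1, hz, mul_zero]
  have h2 : algebraMap (MvPolynomial (Mon n (2 + 2)) k ⧸ I) A
      (Ideal.Quotient.mk I (hd e (zX k n))) = 0 := hz'
  rw [IsLocalization.map_eq_zero_iff (Submonoid.powers sb) A] at h2
  obtain ⟨⟨m, N, hN⟩, hm⟩ := h2
  simp only at hm hN
  rw [← hN, hsb, ← map_pow, ← map_mul, Ideal.Quotient.eq_zero_iff_mem] at hm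
  exact ⟨N, mem_J.2 hm⟩

theorem zX_memD {D : ℤ} (H : VanAt.{u} D) (k : Type u) [Field k] (hk : (D : k) ≠ 0)
    (hk2 : (2 : k) ≠ 0) (hk3 : (3 : k) ≠ 0) (n : ℕ) (e : Fin 7 → Fin n)
    (a b c d : Fin n) : zX k n a b c d ∈ (J k n e).radical := by
  have h1 := polar (V := Fin n → k) (M := MvPolynomial (Mon n (2 + 2)) k ⧸ (J k n e).radical)
    (fun x y z w => Ideal.Quotient.mk _ (G k n x y z w))
  have key : ∀ (q : ℕ) (hq : (q : k) ≠ 0) (m : MvPolynomial (Mon n (2 + 2)) k ⧸ (J k n e).radical),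
      (q : k) • m = 0 → m = 0 := by
    intro q hq' m hm
    rw [← one_smul k m, ← inv_mul_cancel₀ hq', mul_smul, hm, smul_zero]
  have h2 := h1 ?_ ?_ ?_ ?_ ?_ ?_ ?_ (Pi.single a 1) (Pi.single b 1) (Pi.single c 1)
    (Pi.single d 1)
  · simp only [G_single] at h2
    exact Ideal.Quotient.eq_zero_iff_mem.1 h2
  · intro m hm
    refine key 2 (by rw [Nat.cast_ofNat]; exact hk2) m ?_
    rw [Nat.cast_ofNat, two_smul]
    exact hm
  · intro m hm
    refine key 3 (by rw [Nat.cast_ofNat]; exact hk3) m ?_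
    have : ((3 : ℕ) : k) = 1 + 1 + 1 := by norm_num
    rw [this, add_smul, add_smul, one_smul]
    exact hm
  · intro x y z w
    simp only [G_s1 k n x y z w]
  · intro x y z w
    simp only [G_s2 k n x y z w]
  · intro x y z w
    simp only [G_s3 k n x y z w]
  · intro x x' y z w
    simp only [G_add, map_add]
  · intro x
    exact Ideal.Quotient.eq_zero_iff_mem.2 (form_memD H k hk n e x)

theorem nilD {D : ℤ} (H : VanAt.{u} D) (k : Type u) [Field k] (hk : (D : k) ≠ 0)
    (hk2 : (2 : k) ≠ 0) (hk3 : (3 : k) ≠ 0) (n : ℕ) (e : Fin 7 → Fin n) :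
    ∃ N : ℕ, ∀ g ∈ irrelevant k n (2 + 2) ^ N, g * hd e (zX k n) ∈ minorsIdeal k n 2 2 6 := by
  have h : irrelevant k n (2 + 2) ≤ (J k n e).radical := by
    unfold irrelevant
    rw [Ideal.span_le]
    rintro _ ⟨γ, rfl⟩
    obtain ⟨a, b, c, d, h1⟩ := X_eq_zX k n γ
    rw [h1]
    exact zX_memD H k hk hk2 hk3 n e a b c d
  have := finite_Mon n (2 + 2)
  obtain ⟨N, hN⟩ := Ideal.exists_pow_le_of_le_radical_of_fg h
    ⟨(Set.finite_range X).toFinset, by rw [Set.Finite.coe_toFinset]; rfl⟩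
  exact ⟨N, fun g hg => mem_J.1 (hN hg)⟩

/-- **Nonsaturation outside finitely many characteristics**, for all `n ≥ 7` at once. -/
theorem t_UNIF (H : S_VAN.{0}) (hM : S_MIN.{u, u}) (h1 : S_TOP1.{u}) (h3 : S_TOP3.{u}) :
    ∃ P : Finset ℕ, (∀ p ∈ P, p.Prime) ∧ ∀ (k : Type u) [Field k], ringChar k ∉ P →
      ∀ n : ℕ, 7 ≤ n →
      ∃ f : MvPolynomial (Mon n (2 + 2)) k, f.IsHomogeneous 7 ∧ f ∉ minorsIdeal k n 2 2 6 ∧
        ∃ N : ℕ, ∀ g ∈ irrelevant k n (2 + 2) ^ N, g * f ∈ minorsIdeal k n 2 2 6 := by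
  obtain ⟨D, hD, hvan⟩ := van_D.{u} H hM
  obtain ⟨E, hE⟩ : ∃ E : ℤ, E = 2 * 3 * (D * Cst) := ⟨_, rfl⟩
  have hne : E.natAbs ≠ 0 := by
    rw [Int.natAbs_ne_zero, hE]
    exact mul_ne_zero (by norm_num) (mul_ne_zero hD Cst_ne)
  refine ⟨E.natAbs.primeFactors, fun p hp => Nat.prime_of_mem_primeFactors hp,
    fun k _ hk n hn => ?_⟩
  have hcast : ((E : ℤ) : k) ≠ 0 := by
    intro h0
    apply hk
    have h2 : ((E.natAbs : ℕ) : k) = 0 := by
      have h4 : ((E.natAbs : ℤ) : k) = 0 := by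
        rcases Int.natAbs_eq E with h5 | h5
        · rw [← h5]; exact h0
        · have h6 : ((E.natAbs : ℤ)) = -E := by omega
          rw [h6, Int.cast_neg, h0, neg_zero]
      rwa [Int.cast_natCast] at h4
    have h5 : ringChar k ∣ E.natAbs := (ringChar.spec k _).1 h2
    have h6 : ringChar k ≠ 0 := by
      intro h7
      rw [h7, zero_dvd_iff] at h5
      exact hne h5
    have h7 : (ringChar k).Prime := (CharP.char_is_prime_or_zero k (ringChar k)).resolve_right h6
    exact Nat.mem_primeFactors.2 ⟨h7, h5, hne⟩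
  rw [hE] at hcast
  push_cast at hcast
  have hDC := right_ne_zero_of_mul hcast
  have h23 := left_ne_zero_of_mul hcast
  have h6 : (6 : k) = 2 * 3 := by norm_num
  have hk2 : (2 : k) ≠ 0 := fun h => h23 (by rw [h6, h, zero_mul])
  have hk3 : (3 : k) ≠ 0 := fun h => h23 (by rw [h6, h, mul_zero])
  exact ⟨hd (Fin.castLE hn) (zX k n), hd_hom k n _, not_mem h1 h3 k (right_ne_zero_of_mul hDC) n _
    (Fin.castLE_injective hn), nilD hvan k (left_ne_zero_of_mul hDC) hk2 hk3 n _⟩

end Pool.Agent.K1H40.CT.UF
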